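import Pool.Agent.U442.FJ.FV

/-!
# Semidirect products with groups of finite-valued functions
-/

set_option autoImplicit false

namespace Pool.Agent.U442.FJ

open Pool.Agent.Y462.SS (Closed Wr)
open Pool.Agent.Y110.FJ (ClosedE)

/-- the group of the functions `X → A` with finitely many values -/
def FinVal (X A : Type) [Group A] : Subgroup (X → A) where
  carrier := {f | (Set.range f).Finite}
  one_mem' := (Set.finite_singleton (1 : A)).subset (by rintro _ ⟨x, rfl⟩; rfl)
  mul_mem' := by
    intro f g hf hg
    refine (hf.mul hg).subset ?_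
    rintro _ ⟨x, rfl⟩
    exact ⟨f x, ⟨x, rfl⟩, g x, ⟨x, rfl⟩, rfl⟩
  inv_mem' := by
    intro f hf
    refine hf.inv.subset ?_
    rintro _ ⟨x, rfl⟩
    exact ⟨x, (inv_inv (f x)).symm⟩

/-- the action `(γ f) (x) = α γ (f (γ⁻¹ x))` on the finite-valued functions -/
def finValAut (X A Γ : Type) [Group A] [Group Γ] [MulAction Γ X] (α : Γ →* MulAut A) :
    Γ →* MulAut (FinVal X A) :=
  MonoidHom.mk'
    (fun γ =>
      { toFun := fun f => ⟨fun x => α γ (f.1 (γ⁻¹ • x)), (f.2.image (α γ)).subset (by
          rintro _ ⟨x, rfl⟩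
          exact ⟨_, ⟨γ⁻¹ • x, rfl⟩, rfl⟩)⟩
        invFun := fun f => ⟨fun x => (α γ)⁻¹ (f.1 (γ • x)), (f.2.image ((α γ)⁻¹ : MulAut A)).subset (by
          rintro _ ⟨x, rfl⟩
          exact ⟨_, ⟨γ • x, rfl⟩, rfl⟩)⟩
        left_inv := fun f => by
          apply Subtype.ext
          funext x
          change (α γ)⁻¹ (α γ (f.1 (γ⁻¹ • γ • x))) = f.1 x
          rw [inv_smul_smul, MulAut.inv_apply_self]
        right_inv := fun f => by
          apply Subtype.ext
          funext x
          change (α γ) ((α γ)⁻¹ (f.1 (γ • γ⁻¹ • x))) = f.1 x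
          rw [smul_inv_smul, MulAut.apply_inv_self]
        map_mul' := fun f g => by
          apply Subtype.ext
          funext x
          exact map_mul (α γ) _ _ })
    (fun γ δ => by
      apply MulEquiv.ext
      intro f
      apply Subtype.ext
      funext x
      change α (γ * δ) (f.1 ((γ * δ)⁻¹ • x)) = α γ (α δ (f.1 (δ⁻¹ • γ⁻¹ • x)))
      rw [map_mul, mul_inv_rev, mul_smul]
      rfl)

/-- the action `(γ f) (x) = α γ (f (γ⁻¹ x))` on the locally constant functions -/
def locConstAut (X A Γ : Type) [TopologicalSpace X] [Group A] [Group Γ] [MulAction Γ X]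
    [ContinuousConstSMul Γ X] (α : Γ →* MulAut A) : Γ →* MulAut (LocallyConstant X A) :=
  MonoidHom.mk'
    (fun γ =>
      { toFun := fun f => ⟨fun x => α γ (f (γ⁻¹ • x)),
          (f.2.comp_continuous (continuous_const_smul γ⁻¹)).comp (α γ)⟩
        invFun := fun f => ⟨fun x => (α γ)⁻¹ (f (γ • x)),
          (f.2.comp_continuous (continuous_const_smul γ)).comp ((α γ)⁻¹ : MulAut A)⟩
        left_inv := fun f => by
          apply LocallyConstant.ext
          intro x
          change (α γ)⁻¹ (α γ (f (γ⁻¹ • γ • x))) = f x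
          rw [inv_smul_smul, MulAut.inv_apply_self]
        right_inv := fun f => by
          apply LocallyConstant.ext
          intro x
          change (α γ) ((α γ)⁻¹ (f (γ • γ⁻¹ • x))) = f x
          rw [smul_inv_smul, MulAut.apply_inv_self]
        map_mul' := fun f g => by
          apply LocallyConstant.ext
          intro x
          exact map_mul (α γ) _ _ })
    (fun γ δ => by
      apply MulEquiv.ext
      intro f
      apply LocallyConstant.ext
      intro x
      change α (γ * δ) (f ((γ * δ)⁻¹ • x)) = α γ (α δ (f (δ⁻¹ • γ⁻¹ • x)))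
      rw [map_mul, mul_inv_rev, mul_smul]
      rfl)

/-- subgroups of wreath products with finite-valued sections -/
theorem t_wreath (C : ∀ (G : Type) [Group G], Prop) (hC : ClosedE C)
    (G : Type) [Group G] (N : Subgroup G) [N.Normal] (hQ : C (G ⧸ N))
    (X B : Type) [Group B] (hB : C B) (φ : G →* Wr X B) (hfin : ∀ g, (Set.range (φ g).s).Finite)
    (hN : ∀ n ∈ N, (φ n).p = 1) (hinj : ∀ n ∈ N, φ n = 1 → n = 1) : C G := by
  let ν : N →* (X → B) :=
    { toFun := fun n => (φ n).s
      map_one' := by
        rw [Subgroup.coe_one, map_one]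
        rfl
      map_mul' := fun a b => by
        funext x
        rw [Subgroup.coe_mul, map_mul]
        change (φ a).s ((φ b).p x) * (φ b).s x = _
        rw [hN b b.2]
        rfl }
  letI : MulAction G X :=
    { smul := fun g x => (φ g).p x
      one_smul := fun x => by
        change (φ 1).p x = x
        rw [map_one]
        rfl
      mul_smul := fun g h x => by
        change (φ (g * h)).p x = (φ g).p ((φ h).p x)
        rw [map_mul]
        rfl }
  refine t_fv C hC G N hQ X B ν ?_ (fun n => hfin n) ?_
  · intro a b hab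
    have h1 : (φ a) = φ b := by
      refine Wr.ext hab ?_
      rw [hN a a.2, hN b b.2]
    apply Subtype.ext
    have h2 : φ (a * (b : G)⁻¹) = 1 := by
      rw [map_mul, map_inv, h1, mul_inv_cancel]
    exact mul_inv_eq_one.1 (hinj _ (N.mul_mem a.2 (N.inv_mem b.2)) h2)
  · intro g E _
    refine ⟨B, inferInstance, MonoidHom.id B, (φ g).s, hB, Function.injective_id, hfin g, ?_⟩
    intro n _ n' hn' x
    change (φ n').s ((φ g).p x) = (φ g).s x * (φ n).s x * ((φ g).s x)⁻¹
    rw [hn', map_mul, map_mul, map_inv, Wr.conj_s _ _ (hN n n.2)]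
    have h1 : (φ g).p⁻¹ ((φ g).p x) = x := Equiv.symm_apply_apply (φ g).p x
    rw [h1]

/-- a general form for semidirect products -/
theorem t_semi (C : ∀ (G : Type) [Group G], Prop) (hC : ClosedE C) (X A Γ M : Type) [Group A]
    [Group Γ] [Group M] [MulAction Γ X] (α : Γ →* MulAut A) (hA : C (A ⋊[α] Γ))
    (val : M →* (X → A)) (hval : Function.Injective val) (hfin : ∀ f, (Set.range (val f)).Finite)
    (β : Γ →* MulAut M) (hβ : ∀ γ f x, val (β γ f) x = α γ (val f (γ⁻¹ • x))) :
    C (M ⋊[β] Γ) := by
  have hΓ : C Γ := hC.base.of_injective _ _ (SemidirectProduct.inr : Γ →* A ⋊[α] Γ)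
    SemidirectProduct.inr_injective hA
  have hQ : C ((M ⋊[β] Γ) ⧸ (SemidirectProduct.rightHom : M ⋊[β] Γ →* Γ).ker) :=
    hC.base.of_injective _ _ (QuotientGroup.kerLift _) (QuotientGroup.kerLift_injective _) hΓ
  let ν : (SemidirectProduct.rightHom : M ⋊[β] Γ →* Γ).ker →* (X → A) :=
    { toFun := fun n => val n.1.left
      map_one' := by
        change val 1 = 1
        exact map_one val
      map_mul' := fun a b => by
        have ha : a.1.right = 1 := a.2
        change val (a.1.left * β a.1.right b.1.left) = _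
        rw [ha, map_one, map_mul]
        rfl }
  letI : MulAction (M ⋊[β] Γ) X := MulAction.compHom X (SemidirectProduct.rightHom : M ⋊[β] Γ →* Γ)
  refine t_fv C hC (M ⋊[β] Γ) (SemidirectProduct.rightHom : M ⋊[β] Γ →* Γ).ker hQ X A ν ?_
    (fun n => hfin _) ?_
  · intro a b hab
    have h1 : a.1.left = b.1.left := hval hab
    have ha : a.1.right = 1 := a.2
    have hb : b.1.right = 1 := b.2
    apply Subtype.ext
    exact SemidirectProduct.ext h1 (ha.trans hb.symm)
  · intro g E _
    refine ⟨A ⋊[α] Γ, inferInstance, SemidirectProduct.inl,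
      fun x => SemidirectProduct.inl (val g.left (g.right • x)) * SemidirectProduct.inr g.right, hA,
      SemidirectProduct.inl_injective, ?_, ?_⟩
    · refine ((hfin g.left).image (fun a => SemidirectProduct.inl a *
        SemidirectProduct.inr g.right)).subset ?_
      rintro _ ⟨x, rfl⟩
      exact ⟨_, ⟨_, rfl⟩, rfl⟩
    · intro n _ n' hn' x
      have hn : n.1.right = 1 := n.2
      have h1 : n'.1.left = g.left * β g.right n.1.left * g.left⁻¹ := by
        rw [hn']
        simp only [SemidirectProduct.mul_left, SemidirectProduct.mul_right,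
          SemidirectProduct.inv_left, hn, mul_one]
        congr 1
        rw [← MulAut.mul_apply, ← map_mul, mul_inv_cancel, map_one]
        rfl
      change SemidirectProduct.inl (val n'.1.left (g.right • x)) = _
      rw [h1, map_mul, map_mul, map_inv, Pi.mul_apply, Pi.mul_apply, Pi.inv_apply, hβ,
        inv_smul_smul, map_mul, map_mul, map_inv]
      change SemidirectProduct.inl (val g.left (g.right • x)) *
        SemidirectProduct.inl (α g.right (val n.1.left x)) *
        (SemidirectProduct.inl (val g.left (g.right • x)))⁻¹ =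
        (SemidirectProduct.inl (val g.left (g.right • x)) * SemidirectProduct.inr g.right) *
          SemidirectProduct.inl (val n.1.left x) *
          (SemidirectProduct.inl (val g.left (g.right • x)) * SemidirectProduct.inr g.right)⁻¹
      rw [SemidirectProduct.inl_aut, mul_inv_rev]
      simp only [mul_assoc, map_inv]

theorem t_finVal (C : ∀ (G : Type) [Group G], Prop) (hC : ClosedE C) (X A Γ : Type) [Group A]
    [Group Γ] [MulAction Γ X] (α : Γ →* MulAut A) (hA : C (A ⋊[α] Γ)) :
    C (FinVal X A ⋊[finValAut X A Γ α] Γ) :=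
  t_semi C hC X A Γ (FinVal X A) α hA (FinVal X A).subtype (Subgroup.subtype_injective _)
    (fun f => f.2) (finValAut X A Γ α) (fun _ _ _ => rfl)

theorem t_locConst (C : ∀ (G : Type) [Group G], Prop) (hC : ClosedE C) (X A Γ : Type)
    [TopologicalSpace X] [CompactSpace X] [Group A]
    [Group Γ] [MulAction Γ X] [ContinuousConstSMul Γ X] (α : Γ →* MulAut A) (hA : C (A ⋊[α] Γ)) :
    C (LocallyConstant X A ⋊[locConstAut X A Γ α] Γ) :=
  t_semi C hC X A Γ (LocallyConstant X A) α hA
    { toFun := fun f => f, map_one' := rfl, map_mul' := fun _ _ => rfl }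
    (fun _ _ h => LocallyConstant.ext (fun x => congrFun h x))
    (fun f => f.range_finite) (locConstAut X A Γ α) (fun _ _ _ => rfl)

end Pool.Agent.U442.FJ
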