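import Pool.Agent.U442.FJ.Tm

/-!
# Finite-valued functions with a twisted action
-/

set_option autoImplicit false

namespace Pool.Agent.U442.FJ

open Pool.Agent.Y462.SS (Closed Wr)
open Pool.Agent.Y110.FJ (ClosedE)

/-! ## eventually periodic sequences -/

/-- the iterates of a map with finite range are eventually periodic -/
theorem per {X : Type} (φ : X → X) (h : (Set.range φ).Finite) :
    ∃ m : ℕ, 0 < m ∧ ∃ M : ℕ, ∀ n : ℕ, M ≤ n → ∀ t : ℕ, φ^[n + m * t] = φ^[n] := by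
  haveI : Finite (Set.range φ) := h
  have hmaps : ∀ n, ∀ s : Set.range φ, φ^[n] s.1 ∈ Set.range φ := by
    rintro n ⟨_, x, rfl⟩
    rw [← Function.iterate_succ_apply, Function.iterate_succ_apply']
    exact ⟨_, rfl⟩
  let ψ : ℕ → (Set.range φ → Set.range φ) := fun n s => ⟨φ^[n] s.1, hmaps n s⟩
  obtain ⟨a, b, hab, hψ⟩ := Finite.exists_ne_map_eq_of_infinite ψ
  have key : ∀ a b : ℕ, a < b → ψ a = ψ b → ∃ m : ℕ, 0 < m ∧ ∃ M : ℕ, ∀ n : ℕ, M ≤ n →
      ∀ t : ℕ, φ^[n + m * t] = φ^[n] := by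
    intro a b hab h
    have h1 : φ^[a + 1] = φ^[b + 1] := by
      funext x
      rw [Function.iterate_succ_apply, Function.iterate_succ_apply]
      exact congrArg Subtype.val (congrFun h ⟨φ x, x, rfl⟩)
    refine ⟨b - a, by omega, a + 1, fun n hn t => ?_⟩
    have h2 : ∀ n, a + 1 ≤ n → φ^[n + (b - a)] = φ^[n] := by
      intro n hn
      obtain ⟨d, rfl⟩ := Nat.exists_eq_add_of_le hn
      have e1 : a + 1 + d + (b - a) = d + (b + 1) := by omega
      have e2 : a + 1 + d = d + (a + 1) := by omega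
      rw [e1, e2, Function.iterate_add φ d (b + 1), Function.iterate_add φ d (a + 1), h1]
    induction t with
    | zero => simp
    | succ t ih =>
      rw [Nat.mul_succ, ← Nat.add_assoc, h2 _ (by omega), ih]
  rcases lt_or_gt_of_ne hab with h | h
  · exact key a b h hψ
  · exact key b a h hψ.symm

/-- a sequence which is eventually periodic at both ends -/
theorem Ev_of_per {B : Type} (m : ℕ) [NeZero m] (s : ℤ → B) (M : ℤ)
    (h : ∀ ε : ℤˣ, ∀ i : ℤ, M ≤ ε * i → ∀ t : ℕ, s (i + ε * (m * t)) = s i) (ε : ℤˣ) (j : ZMod m) :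
    ∃ b, Ev m s ε j b := by
  obtain ⟨i₀, hi₀, hj₀⟩ := exists_big m ε j M
  refine ⟨s i₀, ε * i₀, fun i hi hj => ?_⟩
  have h1 : ((i - i₀ : ℤ) : ZMod m) = 0 := by
    push_cast
    rw [hj, hj₀, sub_self]
  rw [ZMod.intCast_zmod_eq_zero_iff_dvd] at h1
  obtain ⟨q, hq⟩ := h1
  have hm : (0 : ℤ) < m := by
    have := NeZero.pos m
    exact_mod_cast this
  have hεε : (ε : ℤ) * ε = 1 := by
    rcases unit_cases ε with h | h <;> rw [h] <;> norm_num
  have hq0 : 0 ≤ ε * q := by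
    have h2 : 0 ≤ ε * (i - i₀) := by
      rw [mul_sub]
      linarith
    rw [hq] at h2
    have h3 : 0 ≤ (m : ℤ) * (ε * q) := by
      calc (0 : ℤ) ≤ ε * (m * q) := h2
        _ = m * (ε * q) := by ring
    exact nonneg_of_mul_nonneg_right h3 hm
  obtain ⟨t, ht⟩ := Int.eq_ofNat_of_zero_le hq0
  have h4 : i = i₀ + ε * (m * t) := by
    rw [← ht]
    calc i = i₀ + (i - i₀) := by ring
      _ = i₀ + m * q := by rw [hq]
      _ = i₀ + (ε * ε) * (m * q) := by rw [hεε, one_mul]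
      _ = i₀ + ε * (m * (ε * q)) := by ring
  rw [h4]
  exact h ε i₀ hi₀ t

/-- forward and backward orbit -/
def seq {X : Type} (φ ψ : X → X) (x : X) : ℤ → X
  | Int.ofNat n => φ^[n] x
  | Int.negSucc n => ψ^[n + 1] x

theorem seq_zero {X : Type} (φ ψ : X → X) (x : X) : seq φ ψ x 0 = x := rfl

theorem seq_nat {X : Type} (φ ψ : X → X) (x : X) (n : ℕ) : seq φ ψ x n = φ^[n] x := rfl

theorem seq_neg {X : Type} (φ ψ : X → X) (x : X) (n : ℕ) : seq φ ψ x (-n) = ψ^[n] x := by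
  cases n with
  | zero => rfl
  | succ n => rfl

/-- consecutive terms -/
theorem seq_step {X : Type} (φ ψ : X → X) (x : X) (i : ℤ) :
    (seq φ ψ x (i + 1) = φ (seq φ ψ x i)) ∨ (seq φ ψ x i = ψ (seq φ ψ x (i + 1))) := by
  rcases lt_or_ge i 0 with hi | hi
  · right
    obtain ⟨n, hn⟩ := Int.eq_ofNat_of_zero_le (show 0 ≤ -(i + 1) by omega)
    have h1 : i + 1 = -(n : ℤ) := by
      have hn' : -(i + 1) = (n : ℤ) := hn
      linarith
    have h2 : i = -((n + 1 : ℕ) : ℤ) := by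
      push_cast
      linarith
    rw [h1, seq_neg, h2, seq_neg, Function.iterate_succ_apply']
  · left
    obtain ⟨n, rfl⟩ := Int.eq_ofNat_of_zero_le hi
    have h1 : ((n : ℤ) + 1) = ((n + 1 : ℕ) : ℤ) := by push_cast; rfl
    rw [h1, seq_nat, seq_nat, Function.iterate_succ_apply']

theorem seq_per {X : Type} (φ ψ : X → X) (hφ : (Set.range φ).Finite) (hψ : (Set.range ψ).Finite) :
    ∃ m : ℕ, 0 < m ∧ ∃ M : ℤ, ∀ x : X, ∀ ε : ℤˣ, ∀ i : ℤ, M ≤ ε * i → ∀ t : ℕ,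
      seq φ ψ x (i + ε * (m * t)) = seq φ ψ x i := by
  obtain ⟨m, hm, M, hM⟩ := per φ hφ
  obtain ⟨m', hm', M', hM'⟩ := per ψ hψ
  refine ⟨m * m', Nat.mul_pos hm hm', max M M', fun x ε i hi t => ?_⟩
  rcases unit_cases ε with h | h
  · rw [h] at hi ⊢
    rw [one_mul] at hi
    have h0 : 0 ≤ i := by
      have : (0 : ℤ) ≤ max (M : ℤ) M' := le_max_of_le_left (by positivity)
      exact this.trans hi
    obtain ⟨n, rfl⟩ := Int.eq_ofNat_of_zero_le h0
    have h1 : M ≤ n := by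
      have := (le_max_left _ _).trans hi
      exact_mod_cast this
    have h2 : ((n : ℤ) + 1 * (((m * m' : ℕ) : ℤ) * t)) = ((n + m * (m' * t) : ℕ) : ℤ) := by
      push_cast
      ring
    rw [h2, seq_nat, seq_nat, hM n h1]
  · rw [h] at hi ⊢
    have h0 : 0 ≤ -i := by
      have : (0 : ℤ) ≤ max (M : ℤ) M' := le_max_of_le_left (by positivity)
      linarith
    obtain ⟨n, hn⟩ := Int.eq_ofNat_of_zero_le h0
    have hi' : i = -(n : ℤ) := by
      linarith
    subst hi'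
    have h1 : M' ≤ n := by
      have := (le_max_right _ _).trans hi
      simp only [neg_mul, one_mul, neg_neg] at this
      exact_mod_cast this
    have h2 : (-(n : ℤ) + -1 * (((m * m' : ℕ) : ℤ) * t)) = -((n + m' * (m * t) : ℕ) : ℤ) := by
      push_cast
      ring
    rw [h2, seq_neg, seq_neg, hM' n h1]

/-! ## the theorem -/

/-- a choice of a point with a given label -/
noncomputable def rep {X L : Type} (lam : X → L) (x : X) : X :=
  Classical.choose (⟨x, rfl⟩ : ∃ y, lam y = lam x)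

theorem lam_rep {X L : Type} (lam : X → L) (x : X) : lam (rep lam x) = lam x :=
  Classical.choose_spec (⟨x, rfl⟩ : ∃ y, lam y = lam x)

theorem range_rep {X L : Type} (lam : X → L) (h : (Set.range lam).Finite) :
    (Set.range (rep lam)).Finite := by
  haveI : Finite (Set.range lam) := h
  refine (Set.finite_range (fun l : Set.range lam => Classical.choose l.2)).subset ?_
  rintro _ ⟨x, rfl⟩
  exact ⟨⟨lam x, x, rfl⟩, rfl⟩

/-- **Finite-valued representations.** -/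
theorem t_fv (C : ∀ (G : Type) [Group G], Prop) (hC : ClosedE C)
    (G : Type) [Group G] (N : Subgroup G) [N.Normal] (hQ : C (G ⧸ N))
    (X A : Type) [MulAction G X] [Group A] (ν : N →* (X → A)) (hν : Function.Injective ν)
    (hfin : ∀ n, (Set.range (ν n)).Finite)
    (h : ∀ (g : G) (E : Set N), E.Finite → ∃ (B : Type) (_ : Group B) (ι : A →* B) (b : X → B),
      C B ∧ Function.Injective ι ∧ (Set.range b).Finite ∧
      ∀ n ∈ E, ∀ n' : N, (n' : G) = g * n * g⁻¹ → ∀ x : X,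
        ι (ν n' (g • x)) = b x * ι (ν n x) * (b x)⁻¹) : C G := by
  refine Pool.Agent.R779.FJ.t_crit Pool.Agent.Y529.FJ.t_ext
    (Pool.Agent.Y961.FJ.t_perm Pool.Agent.Y529.FJ.t_ext) C hC G N hQ ?_
  intro g E hE hEN
  have hE' : Set.Finite {n : N | (n : G) ∈ E} :=
    hE.preimage (Subtype.val_injective.injOn)
  obtain ⟨B, _, ι, b, hB, hι, hb, hconj⟩ := h g {n : N | (n : G) ∈ E} hE'
  have hNH : Subgroup.closure (E ∪ (fun x => g * x * g⁻¹) '' E) ≤ N := by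
    rw [Subgroup.closure_le]
    rintro x (hx | ⟨y, hy, rfl⟩)
    · exact hEN hx
    · exact (inferInstance : N.Normal).conj_mem y (hEN hy) g
  -- the labels
  haveI : Finite {n : N | (n : G) ∈ E} := hE'
  let lam : X → B × ({n : N | (n : G) ∈ E} → A) := fun x => (b x, fun n => ν n.1 x)
  have hlam : (Set.range lam).Finite := by
    refine (hb.prod (Set.Finite.pi' (fun n : {n : N | (n : G) ∈ E} => hfin n.1))).subset ?_
    rintro _ ⟨x, rfl⟩
    exact ⟨⟨x, rfl⟩, fun n => ⟨x, rfl⟩⟩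
  let fwd : X → X := fun x => g • rep lam x
  let bwd : X → X := fun x => rep lam (g⁻¹ • x)
  have hfwd : (Set.range fwd).Finite := by
    refine ((range_rep lam hlam).image (fun x => g • x)).subset ?_
    rintro _ ⟨x, rfl⟩
    exact ⟨rep lam x, ⟨x, rfl⟩, rfl⟩
  have hbwd : (Set.range bwd).Finite := by
    refine (range_rep lam hlam).subset ?_
    rintro _ ⟨x, rfl⟩
    exact ⟨_, rfl⟩
  obtain ⟨m, hm, M, hM⟩ := seq_per fwd bwd hfwd hbwd
  haveI : NeZero m := ⟨hm.ne'⟩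
  have hstep : ∀ x i, lam (g⁻¹ • seq fwd bwd x (i + 1)) = lam (seq fwd bwd x i) := by
    intro x i
    rcases seq_step fwd bwd x i with h1 | h1
    · rw [h1]
      change lam (g⁻¹ • g • rep lam (seq fwd bwd x i)) = _
      rw [inv_smul_smul]
      exact lam_rep lam _
    · rw [h1]
      exact (lam_rep lam _).symm
  -- the value of the elements of the subgroup
  let κ : X → (B × ({n : N | (n : G) ∈ E} → A)) × (B × ({n : N | (n : G) ∈ E} → A)) :=
    fun x => (lam x, lam (g⁻¹ • x))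
  have hκ : (Set.range κ).Finite := by
    refine (hlam.prod hlam).subset ?_
    rintro _ ⟨x, rfl⟩
    exact ⟨⟨x, rfl⟩, ⟨_, rfl⟩⟩
  have hval : ∀ (z : G) (hz : z ∈ Subgroup.closure (E ∪ (fun x => g * x * g⁻¹) '' E)),
      ∀ x y : X, κ x = κ y → ν ⟨z, hNH hz⟩ x = ν ⟨z, hNH hz⟩ y := by
    intro z hz
    induction hz using Subgroup.closure_induction with
    | mem z hz =>
      intro x y hxy
      rcases hz with hz | ⟨e, he, hez⟩
      · have h1 := congrArg (fun q => q.1.2 ⟨⟨z, hEN hz⟩, hz⟩) hxy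
        exact h1
      · have h1 : lam (g⁻¹ • x) = lam (g⁻¹ • y) := congrArg Prod.snd hxy
        have h2 : b (g⁻¹ • x) = b (g⁻¹ • y) := congrArg Prod.fst h1
        have h3 : ν ⟨e, hEN he⟩ (g⁻¹ • x) = ν ⟨e, hEN he⟩ (g⁻¹ • y) :=
          congrArg (fun q => q.2 ⟨⟨e, hEN he⟩, he⟩) h1
        apply hι
        have h4 := hconj ⟨e, hEN he⟩ he ⟨z, hNH (Subgroup.subset_closure (Or.inr ⟨e, he, hez⟩))⟩
          hez.symm (g⁻¹ • x)
        have h5 := hconj ⟨e, hEN he⟩ he ⟨z, hNH (Subgroup.subset_closure (Or.inr ⟨e, he, hez⟩))⟩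
          hez.symm (g⁻¹ • y)
        rw [smul_inv_smul] at h4 h5
        rw [h4, h5, h2, h3]
    | one =>
      intro x y _
      have h1 : (⟨1, hNH (Subgroup.one_mem _)⟩ : N) = 1 := rfl
      rw [h1, map_one]
      rfl
    | mul z w hz hw ihz ihw =>
      intro x y hxy
      have h1 : (⟨z * w, hNH (Subgroup.mul_mem _ hz hw)⟩ : N) = ⟨z, hNH hz⟩ * ⟨w, hNH hw⟩ := rfl
      rw [h1, map_mul, Pi.mul_apply, Pi.mul_apply, ihz x y hxy, ihw x y hxy]
    | inv z hz ih =>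
      intro x y hxy
      have h1 : (⟨z⁻¹, hNH (Subgroup.inv_mem _ hz)⟩ : N) = (⟨z, hNH hz⟩)⁻¹ := rfl
      rw [h1, map_inv, Pi.inv_apply, Pi.inv_apply, ih x y hxy]
  haveI : Finite (Set.range κ) := hκ
  let x₀ : Set.range κ → X := fun t => Classical.choose t.2
  have hx₀ : ∀ t, κ (x₀ t) = t.1 := fun t => Classical.choose_spec t.2
  have hEv : ∀ (D : Type) (c : X → D) (x : X) (ε : ℤˣ) (j : ZMod m),
      ∃ v, Ev m (fun i => c (seq fwd bwd x i)) ε j v := by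
    intro D c x ε j
    obtain ⟨v, hv⟩ := Ev_of_per m (seq fwd bwd x) M (hM x) ε j
    exact ⟨c v, hv.comp c⟩
  refine ⟨Set.range κ → T m B, inferInstance,
    { toFun := fun z t => ⟨⟨fun i => ι (ν ⟨z.1, hNH z.2⟩ (seq fwd bwd (x₀ t) i)), 1⟩,
        ⟨0, fun i => by simp⟩, hEv B (fun y => ι (ν ⟨z.1, hNH z.2⟩ y)) (x₀ t)⟩
      map_one' := ?_
      map_mul' := fun z w => ?_ },
    fun t => ⟨⟨fun i => b (seq fwd bwd (x₀ t) i), Equiv.addRight 1⟩, ⟨1, fun i => rfl⟩,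
      hEv B b (x₀ t)⟩,
    Pool.Agent.Y812.SS.C_pow hC.base _ _ (t_T C hC m B hB), ?_, ?_⟩
  · funext t
    apply Subtype.ext
    refine Wr.ext ?_ rfl
    funext i
    change ι (ν 1 _) = 1
    rw [map_one]
    exact map_one ι
  · funext t
    apply Subtype.ext
    refine Wr.ext ?_ rfl
    funext i
    change ι (ν (⟨z.1, hNH z.2⟩ * ⟨w.1, hNH w.2⟩) _) = ι (ν _ _) * ι (ν _ _)
    rw [map_mul, Pi.mul_apply, map_mul]
    rfl
  · intro z w hzw
    apply Subtype.ext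
    have h1 : (⟨z.1, hNH z.2⟩ : N) = ⟨w.1, hNH w.2⟩ := by
      apply hν
      funext x
      have h2 := congrArg (fun q : T m B => q.1.s 0) (congrFun hzw ⟨κ x, x, rfl⟩)
      change ι (ν ⟨z.1, hNH z.2⟩ (x₀ ⟨κ x, x, rfl⟩)) = ι (ν ⟨w.1, hNH w.2⟩ (x₀ ⟨κ x, x, rfl⟩)) at h2
      rw [hval z.1 z.2 x (x₀ ⟨κ x, x, rfl⟩) (hx₀ ⟨κ x, x, rfl⟩).symm,
        hval w.1 w.2 x (x₀ ⟨κ x, x, rfl⟩) (hx₀ ⟨κ x, x, rfl⟩).symm]
      exact hι h2
    exact congrArg (Subtype.val : N → G) h1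
  · intro z w hz hw
    funext t
    apply Subtype.ext
    change (⟨fun i => ι (ν ⟨w.1, hNH w.2⟩ (seq fwd bwd (x₀ t) i)), 1⟩ : Wr ℤ B) =
      ⟨fun i => b (seq fwd bwd (x₀ t) i), Equiv.addRight 1⟩ *
        ⟨fun i => ι (ν ⟨z.1, hNH z.2⟩ (seq fwd bwd (x₀ t) i)), 1⟩ *
        (⟨fun i => b (seq fwd bwd (x₀ t) i), Equiv.addRight 1⟩)⁻¹
    refine Wr.ext ?_ ?_
    · funext i
      rw [Wr.conj_s _ _ rfl]
      have h5 : ((⟨fun i => b (seq fwd bwd (x₀ t) i), Equiv.addRight 1⟩ : Wr ℤ B).p)⁻¹ i = i - 1 := by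
        rw [Equiv.Perm.inv_eq_iff_eq]
        change i = i - 1 + 1
        ring
      rw [h5]
      change ι (ν ⟨w.1, hNH w.2⟩ (seq fwd bwd (x₀ t) i)) = b (seq fwd bwd (x₀ t) (i - 1)) *
        ι (ν ⟨z.1, hNH z.2⟩ (seq fwd bwd (x₀ t) (i - 1))) * (b (seq fwd bwd (x₀ t) (i - 1)))⁻¹
      have h6 := hstep (x₀ t) (i - 1)
      rw [sub_add_cancel] at h6
      have h7 := hconj ⟨z.1, hNH z.2⟩ hz ⟨w.1, hNH w.2⟩ hw (g⁻¹ • seq fwd bwd (x₀ t) i)
      rw [smul_inv_smul] at h7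
      rw [h7]
      have h8 : b (g⁻¹ • seq fwd bwd (x₀ t) i) = b (seq fwd bwd (x₀ t) (i - 1)) :=
        congrArg Prod.fst h6
      have h9 : ν ⟨z.1, hNH z.2⟩ (g⁻¹ • seq fwd bwd (x₀ t) i) =
          ν ⟨z.1, hNH z.2⟩ (seq fwd bwd (x₀ t) (i - 1)) :=
        congrArg (fun q => q.2 ⟨⟨z.1, hNH z.2⟩, hz⟩) h6
      rw [h8, h9]
    · rw [Wr.conj_p _ _ rfl]

end Pool.Agent.U442.FJ
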