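import Pool.Agent.U442.FJ.App
import Pool.Agent.R941.FJ.Lfk
import Pool.Agent.Y462.SS.Det
import Pool.Agent.Y331.SS.Lim
import Pool.Agent.Y179.SS.Free
import Pool.Agent.Y430.SS.Lf

/-!
# Infinite alphabets: preparations
-/

set_option autoImplicit false

namespace Pool.Agent.U442.IA

open Pool.Agent.Y462.SS
open Pool.Agent.U442.FJ (FinVal t_fv t_wreath)
open Pool.Agent.Y110.FJ (ClosedE)
open Monoid
open scoped Pointwise

/-! ## free products of injective maps -/

section coprod
variable {A B Z A' Z' : Type} [Group A] [Group B] [Group Z] [Group A'] [Group Z']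

/-- family for the pushout -/
def Gf (A B Z : Type) [Group A] [Group B] [Group Z] : Bool → Type
  | true => B
  | false => Coprod A Z

instance (c : Bool) : Group (Gf A B Z c) :=
  match c with
  | true => inferInstanceAs (Group B)
  | false => inferInstanceAs (Group (Coprod A Z))

/-- family of maps for the pushout -/
def ph (Z : Type) [Group Z] (f : A →* B) : (c : Bool) → A →* Gf A B Z c
  | true => f
  | false => (Coprod.inl : A →* Coprod A Z)

theorem ph_inj (f : A →* B) (hf : Function.Injective f) : ∀ c, Function.Injective (ph Z f c)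
  | true => hf
  | false => Coprod.inl_injective

theorem inj_map (f : A →* B) (hf : Function.Injective f) :
    Function.Injective (Coprod.map f (MonoidHom.id Z)) := by
  let o : Coprod A Z →* PushoutI (ph Z f) := PushoutI.of (φ := ph Z f) false
  let o' : B →* PushoutI (ph Z f) := PushoutI.of (φ := ph Z f) true
  have ho : Function.Injective o := PushoutI.of_injective (ph_inj f hf) false
  let h : Coprod B Z →* PushoutI (ph Z f) := Coprod.lift o' (o.comp Coprod.inr)
  have hcomp : h.comp (Coprod.map f (MonoidHom.id Z)) = o := by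
    apply Coprod.hom_ext
    · ext a
      simp only [MonoidHom.comp_apply, Coprod.map_apply_inl, h, Coprod.lift_apply_inl]
      have h1 : o' (f a) = PushoutI.base (ph Z f) a := PushoutI.of_apply_eq_base (ph Z f) true a
      have h2 : o (Coprod.inl a) = PushoutI.base (ph Z f) a :=
        PushoutI.of_apply_eq_base (ph Z f) false a
      rw [h1, h2]
    · ext a
      simp only [MonoidHom.comp_apply, Coprod.map_apply_inr, h, Coprod.lift_apply_inr,
        MonoidHom.id_apply]
  have : Function.Injective (h.comp (Coprod.map f (MonoidHom.id Z))) := by rw [hcomp]; exact ho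
  intro x y hxy
  exact this (by rw [MonoidHom.comp_apply, MonoidHom.comp_apply, hxy])

theorem inj_map2 (f : A →* A') (g : Z →* Z') (hf : Function.Injective f)
    (hg : Function.Injective g) : Function.Injective (Coprod.map f g) := by
  have h1 : Function.Injective (Coprod.map (MonoidHom.id A') g) := by
    have h2 := inj_map (Z := A') g hg
    have h3 : Coprod.map (MonoidHom.id A') g =
        (Coprod.swap Z' A').comp ((Coprod.map g (MonoidHom.id A')).comp (Coprod.swap A' Z)) := by
      apply Coprod.hom_ext <;> ext x <;> simp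
    rw [h3]
    exact Coprod.swap_injective.comp (h2.comp Coprod.swap_injective)
  have h4 : Coprod.map f g = (Coprod.map (MonoidHom.id A') g).comp
      (Coprod.map f (MonoidHom.id Z)) := by
    apply Coprod.hom_ext <;> ext x <;> simp
  rw [h4]
  exact h1.comp (inj_map f hf)

end coprod

/-! ## finitely supported permutations -/

/-- the group of the finitely supported permutations -/
def FSym (X : Type) : Subgroup (Equiv.Perm X) where
  carrier := {σ | {x | σ x ≠ x}.Finite}
  one_mem' := by simp
  mul_mem' := by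
    intro σ τ hσ hτ
    refine (hσ.union hτ).subset ?_
    intro x hx
    by_contra h
    simp only [Set.mem_union, Set.mem_setOf_eq, not_or, not_not] at h
    apply hx
    rw [Equiv.Perm.mul_apply, h.2, h.1]
  inv_mem' := by
    intro σ hσ
    refine Set.Finite.subset hσ ?_
    intro x hx h
    apply hx
    rw [Equiv.Perm.inv_eq_iff_eq, h]

theorem mem_FSym {X : Type} {σ : Equiv.Perm X} : σ ∈ FSym X ↔ {x | σ x ≠ x}.Finite := Iff.rfl

instance (X : Type) : (FSym X).Normal where
  conj_mem σ hσ g := by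
    have hσ' : {x | σ x ≠ x}.Finite := hσ
    refine (hσ'.image g).subset ?_
    intro x hx
    refine ⟨g⁻¹ x, ?_, Equiv.apply_symm_apply g x⟩
    intro h
    apply hx
    change g (σ (g⁻¹ x)) = x
    rw [h]
    exact Equiv.apply_symm_apply g x

theorem swap_mem_FSym {X : Type} [DecidableEq X] (x y : X) : Equiv.swap x y ∈ FSym X := by
  refine Set.Finite.subset (Set.toFinite {x, y}) ?_
  intro z hz
  by_contra h
  simp only [Set.mem_insert_iff, Set.mem_singleton_iff, not_or] at h
  exact hz (Equiv.swap_apply_of_ne_of_ne h.1 h.2)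

/-- `FSym X` is locally finite -/
theorem FSym_lf {X : Type} (E : Set (Equiv.Perm X)) (hE : E.Finite) (hE' : E ⊆ FSym X) :
    Finite (Subgroup.closure E) := by
  have hA : (⋃ σ ∈ E, {x | σ x ≠ x}).Finite := hE.biUnion fun σ hσ => hE' hσ
  set A := ⋃ σ ∈ E, {x | σ x ≠ x} with hAdef
  have hfix : ∀ σ ∈ Subgroup.closure E, ∀ x, x ∉ A → σ x = x := by
    intro σ hσ
    induction hσ using Subgroup.closure_induction with
    | mem σ hσ =>
      intro x hx
      by_contra h
      exact hx (Set.mem_biUnion hσ h)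
    | one => intro x _; rfl
    | mul σ τ _ _ hσ hτ =>
      intro x hx
      rw [Equiv.Perm.mul_apply, hτ x hx, hσ x hx]
    | inv σ _ hσ =>
      intro x hx
      rw [Equiv.Perm.inv_eq_iff_eq, hσ x hx]
  have hmaps : ∀ σ ∈ Subgroup.closure E, ∀ x, x ∈ A → σ x ∈ A := by
    intro σ hσ x hx
    by_contra h
    have h1 := hfix σ hσ (σ x) h
    have h2 : σ x = x := σ.injective h1
    rw [h2] at h
    exact h hx
  haveI : Finite A := hA
  refine Finite.of_injective (fun σ : Subgroup.closure E =>
    (fun a : A => (⟨σ.1 a.1, hmaps σ.1 σ.2 a.1 a.2⟩ : A))) ?_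
  intro σ τ h
  apply Subtype.ext
  apply Equiv.ext
  intro x
  by_cases hx : x ∈ A
  · exact congrArg Subtype.val (congrFun h ⟨x, hx⟩)
  · rw [hfix σ.1 σ.2 x hx, hfix τ.1 τ.2 x hx]

/-- the permutations which are in `Q` up to finitely supported ones -/
def Qp {X : Type} (Q : Subgroup (Equiv.Perm X)) : Subgroup (Equiv.Perm X) :=
  (Q.map (QuotientGroup.mk' (FSym X))).comap (QuotientGroup.mk' (FSym X))

theorem le_Qp {X : Type} (Q : Subgroup (Equiv.Perm X)) : Q ≤ Qp Q := Subgroup.le_comap_map _ _

theorem FSym_le_Qp {X : Type} (Q : Subgroup (Equiv.Perm X)) : FSym X ≤ Qp Q := by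
  intro σ hσ
  have h1 : QuotientGroup.mk' (FSym X) σ = 1 := (QuotientGroup.eq_one_iff _).2 hσ
  rw [Qp, Subgroup.mem_comap, h1]
  exact one_mem _

theorem C_Qp {C : ∀ (G : Type) [Group G], Prop} (hC : ClosedE C) {X : Type}
    (Q : Subgroup (Equiv.Perm X)) (hQ : C (Q.map (QuotientGroup.mk' (FSym X)))) : C (Qp Q) := by
  let f : Qp Q →* (Q.map (QuotientGroup.mk' (FSym X))) :=
    { toFun := fun q => ⟨QuotientGroup.mk' (FSym X) q.1, q.2⟩
      map_one' := rfl
      map_mul' := fun _ _ => rfl }
  refine Pool.Agent.R941.FJ.lfk hC f.ker ?_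
    (hC.base.of_injective _ _ (QuotientGroup.kerLift f) (QuotientGroup.kerLift_injective f) hQ)
  intro E hE hEN
  have h1 : Finite (Subgroup.closure ((Qp Q).subtype '' E)) := by
    refine FSym_lf _ (hE.image _) ?_
    rintro _ ⟨σ, hσ, rfl⟩
    have h2 : QuotientGroup.mk' (FSym X) σ.1 = 1 := congrArg Subtype.val (hEN hσ)
    exact (QuotientGroup.eq_one_iff _).1 h2
  rw [← MonoidHom.map_closure] at h1
  exact Finite.of_equiv _ ((Subgroup.closure E).equivMapOfInjective (Qp Q).subtype
    (Qp Q).subtype_injective).toEquiv.symm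

/-! ## finite-valued wreath products -/

theorem t_wreath' {C : ∀ (G : Type) [Group G], Prop} (hC : ClosedE C)
    {X : Type} {Q : Subgroup (Equiv.Perm X)} (hQ : C Q) {B : Type} [Group B] (hB : C B)
    {G : Type} [Group G] (φ : G →* Wr X B) (hinj : Function.Injective φ)
    (hp : ∀ g, (φ g).p ∈ Q) (hfin : ∀ g, (Set.range (φ g).s).Finite) : C G := by
  let f : G →* Q :=
    { toFun := fun g => ⟨(φ g).p, hp g⟩
      map_one' := by
        apply Subtype.ext
        change (φ 1).p = 1
        rw [map_one]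
        rfl
      map_mul' := fun a b => by
        apply Subtype.ext
        change (φ (a * b)).p = (φ a).p * (φ b).p
        rw [map_mul]
        rfl }
  refine t_wreath C hC G f.ker (hC.base.of_injective _ _ (QuotientGroup.kerLift f)
    (QuotientGroup.kerLift_injective f) hQ) X B hB φ hfin ?_ ?_
  · intro n hn
    exact congrArg Subtype.val hn
  · intro n _ h
    exact hinj (h.trans (map_one φ).symm)

theorem C_FinVal {C : ∀ (G : Type) [Group G], Prop} (hC : ClosedE C) (X : Type) {A : Type}
    [Group A] (hA : C A) : C (FinVal X A) := by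
  letI : MulAction (FinVal X A) X :=
    { smul := fun _ x => x, one_smul := fun _ => rfl, mul_smul := fun _ _ _ => rfl }
  refine t_fv C hC (FinVal X A) ⊤ ?_ X A ((FinVal X A).subtype.comp (Subgroup.subtype _)) ?_
    (fun n => n.1.2) ?_
  · haveI : Subsingleton (FinVal X A ⧸ (⊤ : Subgroup (FinVal X A))) :=
      QuotientGroup.subsingleton_quotient_top
    exact Pool.Agent.Y812.SS.C_subsingleton hC.base _
  · exact (Subgroup.subtype_injective _).comp (Subgroup.subtype_injective _)
  · intro g E _
    refine ⟨A, inferInstance, MonoidHom.id A, g.1, hA, Function.injective_id, g.2, ?_⟩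
    intro n _ n' hn' x
    change n'.1.1 x = g.1 x * n.1.1 x * (g.1 x)⁻¹
    rw [hn']
    rfl

/-- going up one level -/
theorem C_up {C : ∀ (G : Type) [Group G], Prop} (hC : ClosedE C)
    {X : Type} {Q : Subgroup (Equiv.Perm X)} (hQ : C Q) (H K : Subgroup (T X)) (hK : C K)
    (h : ∀ g ∈ H, root g ∈ Q ∧ (Set.range (sec g)).Finite ∧ ∀ x, sec g x ∈ K) : C H := by
  let φ : H →* Wr X K :=
    { toFun := fun g => ⟨fun x => ⟨sec g.1 x, (h g.1 g.2).2.2 x⟩, root g.1⟩
      map_one' := by
        apply Wr.ext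
        · funext x
          exact Subtype.ext (sec_one x)
        · exact root_one
      map_mul' := by
        intro g g'
        apply Wr.ext
        · funext x
          exact Subtype.ext (sec_mul g.1 g'.1 x)
        · exact root_mul g.1 g'.1 }
  refine t_wreath' hC hQ hK φ ?_ (fun g => (h g.1 g.2).1) ?_
  · intro g g' hgg
    apply Subtype.ext
    refine T_ext (congrArg Wr.p hgg) fun x => ?_
    exact congrArg Subtype.val (congrFun (congrArg Wr.s hgg) x)
  · intro g
    have h1 := (h g.1 g.2).2.1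
    refine Set.Finite.of_finite_image (f := Subtype.val) (h1.subset ?_) Subtype.val_injective.injOn
    rintro _ ⟨_, ⟨x, rfl⟩, rfl⟩
    exact ⟨x, rfl⟩

/-! ## finite-state automorphisms with vertex permutations in `Q` -/

/-- the group of the finite-state automorphisms with vertex permutations in `Q` -/
def FS {X : Type} (Q : Subgroup (Equiv.Perm X)) : Subgroup (T X) where
  carrier := {g | ∃ F : Set (T X), F.Finite ∧ g ∈ F ∧ ∀ f ∈ F, root f ∈ Q ∧ ∀ x, sec f x ∈ F}
  one_mem' := by
    refine ⟨{1}, Set.finite_singleton _, rfl, ?_⟩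
    rintro _ rfl
    exact ⟨by rw [root_one]; exact one_mem _, fun x => sec_one x⟩
  mul_mem' := by
    rintro g h ⟨F, hF, hg, hF'⟩ ⟨K, hK, hh, hK'⟩
    refine ⟨F * K, hF.mul hK, Set.mul_mem_mul hg hh, ?_⟩
    rintro _ ⟨a, ha, b, hb, rfl⟩
    refine ⟨?_, fun x => ?_⟩
    · change root (a * b) ∈ Q
      rw [root_mul]
      exact mul_mem (hF' a ha).1 (hK' b hb).1
    · change sec (a * b) x ∈ _
      rw [sec_mul]
      exact Set.mul_mem_mul ((hF' a ha).2 _) ((hK' b hb).2 _)
  inv_mem' := by
    rintro g ⟨F, hF, hg, hF'⟩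
    refine ⟨F⁻¹, hF.inv, by simpa using hg, ?_⟩
    intro f hf
    have hf' : f⁻¹ ∈ F := hf
    refine ⟨?_, fun x => ?_⟩
    · rw [← inv_inv f, root_inv]
      exact inv_mem (hF' _ hf').1
    · rw [← inv_inv f, sec_inv, Set.inv_mem_inv]
      exact (hF' _ hf').2 _

theorem FS_root {X : Type} {Q : Subgroup (Equiv.Perm X)} {g : T X} (hg : g ∈ FS Q) :
    root g ∈ Q := by
  obtain ⟨F, _, hg, hF'⟩ := hg
  exact (hF' g hg).1

theorem FS_sec {X : Type} {Q : Subgroup (Equiv.Perm X)} {g : T X} (hg : g ∈ FS Q) (x : X) :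
    sec g x ∈ FS Q := by
  obtain ⟨F, hF, hg, hF'⟩ := hg
  exact ⟨F, hF, (hF' g hg).2 x, hF'⟩

theorem FS_range {X : Type} {Q : Subgroup (Equiv.Perm X)} {g : T X} (hg : g ∈ FS Q) :
    (Set.range (sec g)).Finite := by
  obtain ⟨F, hF, hg, hF'⟩ := hg
  refine hF.subset ?_
  rintro _ ⟨x, rfl⟩
  exact (hF' g hg).2 x

theorem FS_mono {X : Type} {Q Q' : Subgroup (Equiv.Perm X)} (h : Q ≤ Q') : FS Q ≤ FS Q' := by
  rintro g ⟨F, hF, hg, hF'⟩
  exact ⟨F, hF, hg, fun f hf => ⟨h (hF' f hf).1, (hF' f hf).2⟩⟩

/-- finite-state automorphisms of depth at most `k` -/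
theorem C_dep {C : ∀ (G : Type) [Group G], Prop} (hC : ClosedE C)
    {X : Type} {Q : Subgroup (Equiv.Perm X)} (hQ : C Q) (k : ℕ) :
    C ↥(Dk X k ⊓ FS Q) := by
  induction k with
  | zero =>
    haveI : Subsingleton ↥(Dk X 0 ⊓ FS Q) := ⟨fun a b => Subtype.ext
      ((a.2.1 : a.1 = 1).trans (b.2.1 : b.1 = 1).symm)⟩
    exact Pool.Agent.Y812.SS.C_subsingleton hC.base _
  | succ k ih =>
    exact C_up hC hQ _ _ ih fun g hg => ⟨FS_root hg.2, FS_range hg.2,
      fun x => ⟨hg.1 x, FS_sec hg.2 x⟩⟩

end Pool.Agent.U442.IA
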