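import Pool.Agent.U442.FJ.IA1

/-!
# Infinite alphabets: the group generated by automorphisms of bounded depth and directed ones
-/

set_option autoImplicit false

open Classical

namespace Pool.Agent.U442.IA

open Pool.Agent.Y462.SS
open Pool.Agent.Y331.SS (Kn Kn_zero Kn_succ mem_Kn_succ Kn_mono phi wmap)
open Pool.Agent.U442.FJ (FinVal)
open Pool.Agent.Y110.FJ (ClosedE)
open Monoid

variable {X : Type} (Q : Subgroup (Equiv.Perm X)) (d : X) (k : ℕ)

/-- steps of directed automorphisms -/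
def B1Q : Subgroup (B1 d k) where
  carrier := {b | b.1.p ∈ Q ∧ (Set.range b.1.s).Finite ∧ ∀ x, (b.1.s x).1 ∈ FS Q}
  one_mem' := by
    refine ⟨one_mem _, (Set.finite_singleton (1 : Dk X k)).subset ?_, fun x => one_mem _⟩
    rintro _ ⟨x, rfl⟩
    rfl
  mul_mem' := by
    rintro a b ⟨ha, ha', ha''⟩ ⟨hb, hb', hb''⟩
    refine ⟨mul_mem ha hb, (ha'.image2 (fun x y => x * y) hb').subset ?_, fun x =>
      mul_mem (ha'' _) (hb'' _)⟩
    rintro _ ⟨x, rfl⟩
    exact ⟨a.1.s (b.1.p x), ⟨_, rfl⟩, b.1.s x, ⟨_, rfl⟩, rfl⟩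
  inv_mem' := by
    rintro a ⟨ha, ha', ha''⟩
    refine ⟨inv_mem ha, (ha'.image (fun x => x⁻¹)).subset ?_, fun x => inv_mem (ha'' _)⟩
    rintro _ ⟨x, rfl⟩
    exact ⟨a.1.s (a.1.p⁻¹ x), ⟨_, rfl⟩, rfl⟩

variable {Q d k} in
theorem C_B1Q {C : ∀ (G : Type) [Group G], Prop} (hC : ClosedE C) (hQ : C Q) : C (B1Q Q d k) := by
  let φ : B1Q Q d k →* Wr X ↥(Dk X k ⊓ FS Q) :=
    { toFun := fun b => ⟨fun x => ⟨(b.1.1.s x).1, (b.1.1.s x).2, b.2.2.2 x⟩, b.1.1.p⟩
      map_one' := rfl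
      map_mul' := fun _ _ => rfl }
  refine t_wreath' hC hQ (C_dep hC hQ k) φ ?_ (fun b => b.2.1) ?_
  · intro a b hab
    have h1 : (φ a).p = (φ b).p := congrArg Wr.p hab
    have h2 : ∀ x, (φ a).s x = (φ b).s x := fun x => congrFun (congrArg Wr.s hab) x
    have h3 : ∀ x, ((φ a).s x).1 = ((φ b).s x).1 := fun x => congrArg Subtype.val (h2 x)
    apply Subtype.ext
    apply Subtype.ext
    refine Wr.ext ?_ h1
    funext x
    exact Subtype.ext (h3 x)
  · intro b
    have h1 := b.2.2.1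
    refine Set.Finite.of_finite_image (f := Subtype.val)
      ((h1.image Subtype.val).subset ?_) Subtype.val_injective.injOn
    rintro _ ⟨_, ⟨x, rfl⟩, rfl⟩
    exact ⟨_, ⟨x, rfl⟩, rfl⟩

/-- directed automorphisms along `d d d ...` -/
def BQ : Subgroup (ℕ → B1 d k) where
  carrier := {β | (Set.range β).Finite ∧ ∀ n, β n ∈ B1Q Q d k}
  one_mem' := by
    refine ⟨(Set.finite_singleton (1 : B1 d k)).subset ?_, fun x => one_mem _⟩
    rintro _ ⟨x, rfl⟩
    rfl
  mul_mem' := by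
    rintro a b ⟨ha, ha'⟩ ⟨hb, hb'⟩
    refine ⟨(ha.image2 (fun x y => x * y) hb).subset ?_, fun x => mul_mem (ha' _) (hb' _)⟩
    rintro _ ⟨x, rfl⟩
    exact ⟨a x, ⟨_, rfl⟩, b x, ⟨_, rfl⟩, rfl⟩
  inv_mem' := by
    rintro a ⟨ha, ha'⟩
    refine ⟨(ha.image (fun x => x⁻¹)).subset ?_, fun x => inv_mem (ha' _)⟩
    rintro _ ⟨x, rfl⟩
    exact ⟨a x, ⟨_, rfl⟩, rfl⟩

variable {Q d k} in
theorem sh_mem_BQ {β : ℕ → B1 d k} (h : β ∈ BQ Q d k) : sh β ∈ BQ Q d k := by
  refine ⟨h.1.subset ?_, fun n => h.2 _⟩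
  rintro _ ⟨n, rfl⟩
  exact ⟨n + 1, rfl⟩

variable {Q d k} in
theorem C_BQ {C : ∀ (G : Type) [Group G], Prop} (hC : ClosedE C) (hQ : C Q) : C (BQ Q d k) := by
  let φ : BQ Q d k →* FinVal ℕ (B1Q Q d k) :=
    { toFun := fun β => ⟨fun n => ⟨β.1 n, β.2.2 n⟩, by
        refine Set.Finite.of_finite_image (f := Subtype.val)
          (β.2.1.subset ?_) Subtype.val_injective.injOn
        rintro _ ⟨_, ⟨x, rfl⟩, rfl⟩
        exact ⟨x, rfl⟩⟩
      map_one' := rfl
      map_mul' := fun _ _ => rfl }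
  refine hC.base.of_injective _ _ φ ?_ (C_FinVal hC ℕ (C_B1Q hC hQ))
  intro a b hab
  apply Subtype.ext
  funext n
  exact congrArg Subtype.val (congrFun (congrArg Subtype.val hab) n)

/-- the abstract cover -/
abbrev GamQ : Type := Coprod (Coprod ↥(Dk X k ⊓ FS Q) ↥(BQ Q d k)) (FreeGroup (Ray' d))

/-- the map to the full cover -/
noncomputable def mu : GamQ Q d k →* Gam d k where
  toFun γ := (Coprod.map (Coprod.map (Subgroup.inclusion (inf_le_left : Dk X k ⊓ FS Q ≤ Dk X k))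
    (BQ Q d k).subtype) (MonoidHom.id (FreeGroup (Ray' d))) γ :
      Coprod (Coprod (Dk X k) (ℕ → B1 d k)) (FreeGroup (Ray' d)))
  map_one' := by rw [map_one]; rfl
  map_mul' a b := by rw [map_mul]; rfl

theorem mu_injective : Function.Injective (mu Q d k) := by
  have h1 := inj_map2 (Coprod.map (Subgroup.inclusion (inf_le_left : Dk X k ⊓ FS Q ≤ Dk X k))
    (BQ Q d k).subtype) (MonoidHom.id (FreeGroup (Ray' d)))
    (inj_map2 _ _ (Subgroup.inclusion_injective _) (Subgroup.subtype_injective _))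
    Function.injective_id
  exact h1

/-- the cover -/
noncomputable def RQ : Subgroup (Gam d k) := (mu Q d k).range

theorem C_RQ {C : ∀ (G : Type) [Group G], Prop} (hC : ClosedE C) (hQ : C Q) : C (RQ Q d k) := by
  have h1 : C (GamQ Q d k) := hC.base.coprod _ _ (hC.base.coprod _ _ (C_dep hC hQ k)
    (C_BQ hC hQ)) (Pool.Agent.Y179.SS.t_free C hC.base _)
  exact hC.base.of_injective _ _ (MonoidHom.ofInjective (mu_injective Q d k)).symm.toMonoidHom
    (MulEquiv.injective _) h1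

theorem iA_mem {a : Dk X k} (ha : a.1 ∈ FS Q) : iA d k a ∈ RQ Q d k :=
  ⟨Coprod.inl (Coprod.inl ⟨a.1, a.2, ha⟩), by
    change Coprod.map _ _ (Coprod.inl (Coprod.inl _)) = Coprod.inl (Coprod.inl a)
    rw [Coprod.map_apply_inl, Coprod.map_apply_inl]
    rfl⟩

theorem iB_mem {β : ℕ → B1 d k} (hβ : β ∈ BQ Q d k) : iB d k β ∈ RQ Q d k :=
  ⟨Coprod.inl (Coprod.inr ⟨β, hβ⟩), by
    change Coprod.map _ _ (Coprod.inl (Coprod.inr _)) = Coprod.inl (Coprod.inr β)
    rw [Coprod.map_apply_inl, Coprod.map_apply_inr]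
    rfl⟩

theorem iC_mem (γ : FreeGroup (Ray' d)) : iC d k γ ∈ RQ Q d k :=
  ⟨Coprod.inr γ, by
    change Coprod.map _ _ (Coprod.inr _) = Coprod.inr γ
    rw [Coprod.map_apply_inr]
    rfl⟩

theorem cc_mem (ξ : ℕ → X) : cc d k ξ ∈ RQ Q d k := by
  unfold cc
  split_ifs with h
  · exact one_mem _
  · exact iC_mem Q d k _

theorem dl_mem {ξ η : ℕ → X} {β : ℕ → B1 d k} (hβ : β ∈ BQ Q d k) : dl d k ξ β η ∈ RQ Q d k :=
  mul_mem (mul_mem (cc_mem Q d k η) (iB_mem Q d k hβ)) (inv_mem (cc_mem Q d k ξ))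

/-- the elements of the full cover whose recursion is as required -/
def Good : Subgroup (Gam d k) where
  carrier := {γ | (psi d k γ).p ∈ Q ∧ (Set.range (psi d k γ).s).Finite ∧
    ∀ x, (psi d k γ).s x ∈ RQ Q d k}
  one_mem' := by
    refine ⟨?_, (Set.finite_singleton (1 : Gam d k)).subset ?_, fun x => ?_⟩
    · rw [map_one]
      exact one_mem _
    · rintro _ ⟨x, rfl⟩
      rw [map_one]
      rfl
    · rw [map_one]
      exact one_mem _
  mul_mem' := by
    rintro a b ⟨ha, ha', ha''⟩ ⟨hb, hb', hb''⟩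
    refine ⟨?_, (ha'.image2 (fun x y => x * y) hb').subset ?_, fun x => ?_⟩
    · rw [map_mul]
      exact mul_mem ha hb
    · rintro _ ⟨x, rfl⟩
      rw [map_mul]
      exact ⟨(psi d k a).s ((psi d k b).p x), ⟨_, rfl⟩, (psi d k b).s x, ⟨_, rfl⟩, rfl⟩
    · rw [map_mul]
      exact mul_mem (ha'' _) (hb'' _)
  inv_mem' := by
    rintro a ⟨ha, ha', ha''⟩
    refine ⟨?_, (ha'.image (fun x => x⁻¹)).subset ?_, fun x => ?_⟩
    · rw [map_inv]
      exact inv_mem ha
    · rintro _ ⟨x, rfl⟩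
      rw [map_inv]
      exact ⟨(psi d k a).s ((psi d k a).p⁻¹ x), ⟨_, rfl⟩, rfl⟩
    · rw [map_inv]
      exact inv_mem (ha'' _)

variable {Q} in
theorem good_iA {a : Dk X k} (ha : a.1 ∈ FS Q) : iA d k a ∈ Good Q d k := by
  refine ⟨?_, ?_, ?_⟩
  · rw [psi_iA]
    exact FS_root ha
  · rw [psi_iA]
    have h1 : (Set.range (fun x => (⟨sec a.1 x, isDep_sec a.2 x⟩ : Dk X k))).Finite := by
      refine Set.Finite.of_finite_image (f := Subtype.val)
        ((FS_range ha).subset ?_) Subtype.val_injective.injOn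
      rintro _ ⟨_, ⟨x, rfl⟩, rfl⟩
      exact ⟨x, rfl⟩
    refine (h1.image (iA d k)).subset ?_
    rintro _ ⟨x, rfl⟩
    exact ⟨_, ⟨x, rfl⟩, rfl⟩
  · intro x
    rw [psi_iA]
    exact iA_mem Q d k (a := ⟨sec a.1 x, isDep_sec a.2 x⟩) (FS_sec ha x)

variable {Q} in
theorem good_iB {β : ℕ → B1 d k} (hβ : β ∈ BQ Q d k) : iB d k β ∈ Good Q d k := by
  refine ⟨?_, ?_, ?_⟩
  · rw [psi_iB]
    exact (hβ.2 0).1
  · rw [psi_iB]
    refine ((((hβ.2 0).2.1).image (iA d k)).union (Set.finite_singleton (iB d k (sh β)))).subset ?_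
    rintro _ ⟨x, rfl⟩
    change (if x = d then iB d k (sh β) else iA d k ((β 0).1.s x)) ∈ _
    split_ifs with h
    · exact Or.inr rfl
    · exact Or.inl ⟨_, ⟨x, rfl⟩, rfl⟩
  · intro x
    rw [psi_iB]
    change (if x = d then iB d k (sh β) else iA d k ((β 0).1.s x)) ∈ _
    split_ifs with h
    · exact iB_mem Q d k (sh_mem_BQ hβ)
    · exact iA_mem Q d k ((hβ.2 0).2.2 x)

variable {Q} in
theorem good_cc (hsw : ∀ x, Equiv.swap d x ∈ Q) (ξ : ℕ → X) : cc d k ξ ∈ Good Q d k := by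
  refine ⟨?_, ?_, ?_⟩
  · rw [psi_cc]
    exact hsw _
  · rw [psi_cc]
    refine (Set.toFinite {cc d k (sh ξ), 1}).subset ?_
    rintro _ ⟨x, rfl⟩
    change (if x = d then cc d k (sh ξ) else 1) ∈ _
    split_ifs with h
    · exact Or.inl rfl
    · exact Or.inr rfl
  · intro x
    rw [psi_cc]
    change (if x = d then cc d k (sh ξ) else 1) ∈ _
    split_ifs with h
    · exact cc_mem Q d k _
    · exact one_mem _

variable {Q} in
theorem RQ_le_good (hsw : ∀ x, Equiv.swap d x ∈ Q) : RQ Q d k ≤ Good Q d k := by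
  rintro _ ⟨γ, rfl⟩
  induction γ using Coprod.induction_on with
  | inl γ =>
    induction γ using Coprod.induction_on with
    | inl a =>
      have h1 : mu Q d k (Coprod.inl (Coprod.inl a)) = iA d k ⟨a.1, a.2.1⟩ := by
        change Coprod.map _ _ (Coprod.inl (Coprod.inl _)) = Coprod.inl (Coprod.inl _)
        rw [Coprod.map_apply_inl, Coprod.map_apply_inl]
        rfl
      rw [h1]
      exact good_iA d k (a := ⟨a.1, a.2.1⟩) a.2.2
    | inr β =>
      have h1 : mu Q d k (Coprod.inl (Coprod.inr β)) = iB d k β.1 := by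
        change Coprod.map _ _ (Coprod.inl (Coprod.inr _)) = Coprod.inl (Coprod.inr _)
        rw [Coprod.map_apply_inl, Coprod.map_apply_inr]
        rfl
      rw [h1]
      exact good_iB d k β.2
    | mul a b ha hb =>
      rw [map_mul, map_mul]
      exact mul_mem ha hb
  | inr γ =>
    have h1 : ∀ γ : FreeGroup (Ray' d), mu Q d k (Coprod.inr γ) = iC d k γ := by
      intro γ
      change Coprod.map _ _ (Coprod.inr _) = Coprod.inr _
      rw [Coprod.map_apply_inr]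
      rfl
    rw [h1]
    induction γ using FreeGroup.induction_on with
    | C1 => rw [map_one]; exact one_mem _
    | of ξ =>
      rw [← cc_ray]
      exact good_cc d k hsw _
    | inv_of ξ h =>
      rw [map_inv]
      exact inv_mem h
    | mul a b ha hb =>
      rw [map_mul]
      exact mul_mem ha hb
  | mul a b ha hb =>
    rw [map_mul]
    exact mul_mem ha hb

/-! ## the limit -/

variable {Q d k} in
/-- the recursion on the cover -/
noncomputable def psiR (hsw : ∀ x, Equiv.swap d x ∈ Q) : RQ Q d k →* Wr X (RQ Q d k) where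
  toFun γ := ⟨fun x => ⟨(psi d k γ.1).s x, (RQ_le_good d k hsw γ.2).2.2 x⟩, (psi d k γ.1).p⟩
  map_one' := by
    apply Wr.ext
    · funext x
      apply Subtype.ext
      change (psi d k 1).s x = 1
      rw [map_one]
      rfl
    · change (psi d k 1).p = 1
      rw [map_one]
      rfl
  map_mul' a b := by
    apply Wr.ext
    · funext x
      apply Subtype.ext
      change (psi d k (a.1 * b.1)).s x = _
      rw [map_mul]
      rfl
    · change (psi d k (a.1 * b.1)).p = _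
      rw [map_mul]
      rfl

variable {Q d k} in
theorem psiR_range (hsw : ∀ x, Equiv.swap d x ∈ Q) (γ : RQ Q d k) :
    (Set.range (psiR hsw γ).s).Finite := by
  refine Set.Finite.of_finite_image (f := Subtype.val)
    ((RQ_le_good d k hsw γ.2).2.1.subset ?_) Subtype.val_injective.injOn
  rintro _ ⟨_, ⟨x, rfl⟩, rfl⟩
  exact ⟨x, rfl⟩

variable {Q d k} in
theorem kn_of_dies (hsw : ∀ x, Equiv.swap d x ∈ Q) {γ : Gam d k} (h : Dies (psi d k) γ) :
    ∀ hγ : γ ∈ RQ Q d k, ∃ n, (⟨γ, hγ⟩ : RQ Q d k) ∈ Kn (psiR hsw) n := by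
  induction h with
  | one => exact fun _ => ⟨0, one_mem _⟩
  | step γ h1 _ ih =>
    intro hγ
    have h2 : ∀ v : RQ Q d k, ∃ n, v ∈ Set.range (psiR hsw ⟨γ, hγ⟩).s → v ∈ Kn (psiR hsw) n := by
      intro v
      by_cases hv : v ∈ Set.range (psiR hsw ⟨γ, hγ⟩).s
      · obtain ⟨x, rfl⟩ := hv
        obtain ⟨n, hn⟩ := ih x ((psiR hsw ⟨γ, hγ⟩).s x).2
        exact ⟨n, fun _ => hn⟩
      · exact ⟨0, fun h => absurd h hv⟩
    choose n hn using h2
    obtain ⟨N, hN⟩ := ((psiR_range hsw ⟨γ, hγ⟩).image n).bddAbove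
    refine ⟨N + 1, (mem_Kn_succ _ N _).2 ⟨h1, fun x => ?_⟩⟩
    exact Kn_mono _ (hN ⟨_, ⟨x, rfl⟩, rfl⟩) (hn _ ⟨x, rfl⟩)

variable {Q d k} in
theorem tau_of_kn (hsw : ∀ x, Equiv.swap d x ∈ Q) (n : ℕ) : ∀ γ : RQ Q d k,
    γ ∈ Kn (psiR hsw) n → tau (psi d k) γ.1 = 1 := by
  induction n with
  | zero =>
    intro γ h
    rw [Kn_zero, Subgroup.mem_bot] at h
    rw [h]
    exact map_one _
  | succ n ih =>
    intro γ h
    rw [mem_Kn_succ] at h
    apply T_ext
    · rw [root_tau, root_one]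
      exact h.1
    · intro x
      rw [sec_tau, sec_one]
      exact ih _ (h.2 x)

variable {Q d k} in
theorem C_Kn (hsw : ∀ x, Equiv.swap d x ∈ Q) {C : ∀ (G : Type) [Group G], Prop} (hC : ClosedE C)
    (hQ : C Q) (n : ℕ) : C (RQ Q d k ⧸ Kn (psiR hsw) n) := by
  induction n with
  | zero =>
    refine hC.base.of_injective (RQ Q d k ⧸ Kn (psiR hsw) 0) (RQ Q d k)
      (QuotientGroup.lift (Kn (psiR hsw) 0) (MonoidHom.id _) ?_) ?_ (C_RQ Q d k hC hQ)
    · intro x hx
      rw [Kn_zero, Subgroup.mem_bot] at hx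
      exact hx
    · rw [injective_iff_map_eq_one]
      intro a ha
      obtain ⟨y, rfl⟩ := QuotientGroup.mk_surjective a
      have h1 : y = 1 := ha
      rw [h1]
      rfl
  | succ n ih =>
    have key : C (RQ Q d k ⧸ (phi (psiR hsw) (Kn (psiR hsw) n)).ker) := by
      refine t_wreath' hC hQ ih (QuotientGroup.kerLift (phi (psiR hsw) (Kn (psiR hsw) n)))
        (QuotientGroup.kerLift_injective _) ?_ ?_
      · intro g
        obtain ⟨y, rfl⟩ := QuotientGroup.mk_surjective g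
        exact (RQ_le_good d k hsw y.2).1
      · intro g
        obtain ⟨y, rfl⟩ := QuotientGroup.mk_surjective g
        refine ((psiR_range hsw y).image (QuotientGroup.mk' (Kn (psiR hsw) n))).subset ?_
        rintro _ ⟨x, rfl⟩
        exact ⟨_, ⟨x, rfl⟩, rfl⟩
    exact key

/-- the group generated by the automorphisms of depth at most `k` and the directed ones -/
noncomputable def MQ : Subgroup (T X) := (RQ Q d k).map (tau (psi d k))

variable {Q d k} in
theorem C_MQ (hsw : ∀ x, Equiv.swap d x ∈ Q) {C : ∀ (G : Type) [Group G], Prop} (hC : ClosedE C)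
    (hQ : C Q) : C (MQ Q d k) := by
  let f : RQ Q d k →* T X := (tau (psi d k)).comp (RQ Q d k).subtype
  have hle : ∀ n, Kn (psiR hsw) n ≤ f.ker := fun n γ h => tau_of_kn hsw n γ h
  have h1 : C (RQ Q d k ⧸ f.ker) := by
    refine hC.base.colim ℕ (fun i j => ⟨max i j, le_max_left i j, le_max_right i j⟩)
      (fun n => RQ Q d k ⧸ Kn (psiR hsw) n)
      (fun i j h => QuotientGroup.map (Kn (psiR hsw) i) (Kn (psiR hsw) j) (MonoidHom.id _)
        (Kn_mono _ h))
      (RQ Q d k ⧸ f.ker) (fun i => QuotientGroup.map (Kn (psiR hsw) i) f.ker (MonoidHom.id _)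
        (hle i)) ?_ ?_ ?_ ?_ ?_ ?_
    · intro i h x
      obtain ⟨y, rfl⟩ := QuotientGroup.mk_surjective x
      rfl
    · intro i j k h h' x
      obtain ⟨y, rfl⟩ := QuotientGroup.mk_surjective x
      rfl
    · intro i j h x
      obtain ⟨y, rfl⟩ := QuotientGroup.mk_surjective x
      rfl
    · intro y
      obtain ⟨z, rfl⟩ := QuotientGroup.mk_surjective y
      exact ⟨0, QuotientGroup.mk z, rfl⟩
    · intro i x hx
      obtain ⟨y, rfl⟩ := QuotientGroup.mk_surjective x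
      have h1 : (QuotientGroup.mk y : RQ Q d k ⧸ f.ker) = 1 := hx
      have h2 : y ∈ f.ker := (QuotientGroup.eq_one_iff _).1 h1
      obtain ⟨n, hn⟩ := kn_of_dies hsw (dies_of_tau d k (γ := y.1) h2) y.2
      refine ⟨max i n, le_max_left i n, ?_⟩
      have h3 : y ∈ Kn (psiR hsw) (max i n) := Kn_mono _ (le_max_right i n) hn
      exact (QuotientGroup.eq_one_iff _).2 h3
    · intro n
      exact C_Kn hsw hC hQ n
  have h2 : MQ Q d k = f.range := by
    rw [MonoidHom.range_comp, Subgroup.range_subtype]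
    rfl
  rw [h2]
  exact hC.base.of_injective _ _ (QuotientGroup.quotientKerEquivRange f).symm.toMonoidHom
    (QuotientGroup.quotientKerEquivRange f).symm.injective h1

variable {Q d k} in
theorem MQ_spec (hsw : ∀ x, Equiv.swap d x ∈ Q) {g : T X} (hg : g ∈ MQ Q d k) :
    root g ∈ Q ∧ (Set.range (sec g)).Finite ∧ ∀ x, sec g x ∈ MQ Q d k := by
  obtain ⟨γ, hγ, rfl⟩ := hg
  have h1 := RQ_le_good d k hsw hγ
  refine ⟨by rw [root_tau]; exact h1.1, (h1.2.1.image (tau (psi d k))).subset ?_, fun x => ?_⟩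
  · rintro _ ⟨x, rfl⟩
    rw [sec_tau]
    exact ⟨_, ⟨x, rfl⟩, rfl⟩
  · rw [sec_tau]
    exact ⟨_, h1.2.2 x, rfl⟩

theorem dep_mem_MQ {g : T X} (hg : IsDep k g) (hg' : g ∈ FS Q) : g ∈ MQ Q d k :=
  ⟨iA d k ⟨g, hg⟩, iA_mem Q d k (a := ⟨g, hg⟩) hg', tau_iA d k _⟩

end Pool.Agent.U442.IA
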