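import Pool.Agent.U442.FJ.IA2

/-!
# Infinite alphabets: levels and the main theorem
-/

set_option autoImplicit false

open Classical

namespace Pool.Agent.U442.IA

open Pool.Agent.Y462.SS
open Pool.Agent.Y110.FJ (ClosedE)

variable {X : Type}

theorem fin_of_factor {α β γ : Type} (f : α → β) (g : α → γ) (hg : (Set.range g).Finite)
    (h : ∀ a b, g a = g b → f a = f b) : (Set.range f).Finite := by
  haveI : Finite (Set.range g) := hg
  refine (Set.finite_range (fun c : Set.range g => f (Classical.choose c.2))).subset ?_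
  rintro _ ⟨a, rfl⟩
  exact ⟨⟨g a, a, rfl⟩, h _ _ (Classical.choose_spec (⟨a, rfl⟩ : ∃ b, g b = g a))⟩

/-- directed finite-state automorphisms with a finite-valued ray -/
theorem dir_mem_MQ {Q : Subgroup (Equiv.Perm X)} {d : X} {k : ℕ}
    (hsw : ∀ x, Equiv.swap d x ∈ Q) {ξ : ℕ → X} {h : T X} (hh : Dir k ξ h) (hFS : h ∈ FS Q)
    (hdet : ∀ n m, al ξ h n = al ξ h m → ξ n = ξ m) : h ∈ MQ Q d k := by
  have hoff : ∀ n x, x ≠ d → IsDep k (sec (al ξ h n) (Equiv.swap d (ξ n) x)) := by
    intro n x hx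
    apply hh
    intro h5
    apply hx
    rw [Equiv.swap_apply_eq_iff, Equiv.swap_apply_right] at h5
    exact h5
  have halFS : ∀ n, al ξ h n ∈ FS Q := by
    intro n
    induction n with
    | zero => exact hFS
    | succ n ih => exact FS_sec ih _
  have halfin : (Set.range (al ξ h)).Finite := by
    obtain ⟨F, hF, hg, hF'⟩ := hFS
    refine hF.subset ?_
    rintro _ ⟨n, rfl⟩
    induction n with
    | zero => exact hg
    | succ n ih => exact (hF' _ ih).2 _
  let β : ℕ → B1 d k := fun n =>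
    ⟨⟨fun x => if hx : x = d then 1 else ⟨sec (al ξ h n) (Equiv.swap d (ξ n) x), hoff n x hx⟩,
      Equiv.swap d (root (al ξ h n) (ξ n)) * root (al ξ h n) * Equiv.swap d (ξ n)⟩, by
      refine ⟨?_, dif_pos rfl⟩
      change (Equiv.swap d (root (al ξ h n) (ξ n)) * root (al ξ h n) * Equiv.swap d (ξ n)) d = d
      rw [Equiv.Perm.mul_apply, Equiv.Perm.mul_apply, Equiv.swap_apply_left,
        Equiv.swap_apply_right]⟩
  have hβ : β ∈ BQ Q d k := by
    refine ⟨fin_of_factor β (al ξ h) halfin ?_, fun n => ⟨?_, ?_, ?_⟩⟩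
    · intro n m hnm
      have h1 := hdet n m hnm
      apply Subtype.ext
      refine Wr.ext ?_ ?_
      · funext x
        change (if hx : x = d then 1 else
          ⟨sec (al ξ h n) (Equiv.swap d (ξ n) x), hoff n x hx⟩ : Dk X k) = (if hx : x = d then 1 else
          ⟨sec (al ξ h m) (Equiv.swap d (ξ m) x), hoff m x hx⟩ : Dk X k)
        by_cases hx : x = d
        · rw [dif_pos hx, dif_pos hx]
        · rw [dif_neg hx, dif_neg hx]
          apply Subtype.ext
          change sec (al ξ h n) (Equiv.swap d (ξ n) x) = sec (al ξ h m) (Equiv.swap d (ξ m) x)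
          rw [hnm, h1]
      · change Equiv.swap d (root (al ξ h n) (ξ n)) * root (al ξ h n) * Equiv.swap d (ξ n) =
          Equiv.swap d (root (al ξ h m) (ξ m)) * root (al ξ h m) * Equiv.swap d (ξ m)
        rw [hnm, h1]
    · exact mul_mem (mul_mem (hsw _) (FS_root (halFS n))) (hsw _)
    · have h1 : (Set.range (fun x => ((β n).1.s x).1)).Finite := by
        refine ((FS_range (halFS n)).union (Set.finite_singleton (1 : T X))).subset ?_
        rintro _ ⟨x, rfl⟩
        change (if hx : x = d then 1 else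
          ⟨sec (al ξ h n) (Equiv.swap d (ξ n) x), hoff n x hx⟩ : Dk X k).1 ∈ _
        by_cases hx : x = d
        · rw [dif_pos hx]
          exact Or.inr rfl
        · rw [dif_neg hx]
          exact Or.inl ⟨_, rfl⟩
      refine Set.Finite.of_finite_image (f := Subtype.val)
        (h1.subset ?_) Subtype.val_injective.injOn
      rintro _ ⟨_, ⟨x, rfl⟩, rfl⟩
      exact ⟨x, rfl⟩
    · intro x
      change (if hx : x = d then 1 else
        ⟨sec (al ξ h n) (Equiv.swap d (ξ n) x), hoff n x hx⟩ : Dk X k).1 ∈ FS Q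
      by_cases hx : x = d
      · rw [dif_pos hx]
        exact one_mem _
      · rw [dif_neg hx]
        exact FS_sec (halFS n) _
  refine ⟨dl d k ξ β (fun n => root (al ξ h n) (ξ n)), dl_mem Q d k hβ, ?_⟩
  apply Subtype.ext
  apply Equiv.ext
  intro w
  refine act_dl d k w h ξ β _ (fun n => rfl) (fun n => rfl) ?_
  intro n x hx
  change Subtype.val (if hx : x = d then 1 else
    ⟨sec (al ξ h n) (Equiv.swap d (ξ n) x), hoff n x hx⟩ : Dk X k) = _
  rw [dif_neg hx]

/-! ## levels -/

/-- automorphisms whose sections of level `n` are in `H`, with vertex permutations in `Q` and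
finitely many sections above -/
def LvQ (Q : Subgroup (Equiv.Perm X)) (H : Subgroup (T X)) : ℕ → Subgroup (T X)
  | 0 => H
  | n + 1 =>
    { carrier := {g | root g ∈ Q ∧ (Set.range (sec g)).Finite ∧ ∀ x, sec g x ∈ LvQ Q H n}
      one_mem' := by
        refine ⟨by rw [root_one]; exact one_mem _, (Set.finite_singleton (1 : T X)).subset ?_,
          fun x => by rw [sec_one]; exact one_mem _⟩
        rintro _ ⟨x, rfl⟩
        exact sec_one x
      mul_mem' := by
        rintro g h ⟨h1, h2, h3⟩ ⟨h1', h2', h3'⟩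
        refine ⟨by rw [root_mul]; exact mul_mem h1 h1',
          (h2.image2 (fun x y => x * y) h2').subset ?_,
          fun x => by rw [sec_mul]; exact mul_mem (h3 _) (h3' _)⟩
        rintro _ ⟨x, rfl⟩
        exact ⟨sec g (root h x), ⟨_, rfl⟩, sec h x, ⟨_, rfl⟩, (sec_mul g h x).symm⟩
      inv_mem' := by
        rintro g ⟨h1, h2, h3⟩
        refine ⟨by rw [root_inv]; exact inv_mem h1, (h2.image (fun x => x⁻¹)).subset ?_,
          fun x => by rw [sec_inv]; exact inv_mem (h3 _)⟩
        rintro _ ⟨x, rfl⟩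
        exact ⟨sec g ((root g)⁻¹ x), ⟨_, rfl⟩, (sec_inv g x).symm⟩ }

theorem C_LvQ {C : ∀ (G : Type) [Group G], Prop} (hC : ClosedE C)
    {Q : Subgroup (Equiv.Perm X)} (hQ : C Q) (H : Subgroup (T X)) (hH : C H) (n : ℕ) :
    C (LvQ Q H n) := by
  induction n with
  | zero => exact hH
  | succ n ih => exact C_up hC hQ _ _ ih fun g hg => hg

section lev

variable {Q : Subgroup (Equiv.Perm X)} {d : X} {k : ℕ}

theorem LvQ_le_succ (hsw : ∀ x, Equiv.swap d x ∈ Q) (n : ℕ) :
    LvQ Q (MQ Q d k) n ≤ LvQ Q (MQ Q d k) (n + 1) := by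
  induction n with
  | zero => exact fun g hg => MQ_spec hsw hg
  | succ n ih => exact fun g hg => ⟨hg.1, hg.2.1, fun x => ih (hg.2.2 x)⟩

theorem LvQ_mono (hsw : ∀ x, Equiv.swap d x ∈ Q) : Monotone (LvQ Q (MQ Q d k)) :=
  monotone_nat_of_le_succ fun n => LvQ_le_succ hsw n

theorem comb (hsw : ∀ x, Equiv.swap d x ∈ Q) {g : T X} (hg : g ∈ FS Q)
    (h : ∀ x, ∃ n, sec g x ∈ LvQ Q (MQ Q d k) n) : ∃ n, g ∈ LvQ Q (MQ Q d k) n := by
  have h2 : ∀ v : T X, ∃ n, v ∈ Set.range (sec g) → v ∈ LvQ Q (MQ Q d k) n := by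
    intro v
    by_cases hv : v ∈ Set.range (sec g)
    · obtain ⟨x, rfl⟩ := hv
      obtain ⟨n, hn⟩ := h x
      exact ⟨n, fun _ => hn⟩
    · exact ⟨0, fun h => absurd h hv⟩
  choose n hn using h2
  obtain ⟨N, hN⟩ := ((FS_range hg).image n).bddAbove
  refine ⟨N + 1, FS_root hg, FS_range hg, fun x => ?_⟩
  exact LvQ_mono hsw (hN ⟨_, ⟨x, rfl⟩, rfl⟩) (hn _ ⟨x, rfl⟩)

theorem single_dep (hsw : ∀ x, Equiv.swap d x ∈ Q) (n : ℕ) : ∀ (ξ : ℕ → X) (g : T X),
    g ∈ FS Q → Dir k ξ g → IsDep k (al ξ g n) → ∃ m, g ∈ LvQ Q (MQ Q d k) m := by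
  induction n with
  | zero => exact fun ξ g hg _ h => ⟨0, dep_mem_MQ Q d k h hg⟩
  | succ n ih =>
    intro ξ g hg hdir h
    refine comb hsw hg fun x => ?_
    by_cases hx : x = ξ 0
    · subst hx
      refine ih (sh ξ) _ (FS_sec hg _) ?_ ?_
      · intro n x hx
        rw [al_sh]
        exact hdir (n + 1) x hx
      · rw [al_sh]
        exact h
    · exact ⟨0, dep_mem_MQ Q d k (hdir 0 x hx) (FS_sec hg _)⟩

theorem single (hsw : ∀ x, Equiv.swap d x ∈ Q) (ξ : ℕ → X) (g : T X)
    (hg : g ∈ FS Q) (hdir : Dir k ξ g) : ∃ m, g ∈ LvQ Q (MQ Q d k) m := by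
  by_cases h : ∃ n, IsDep k (al ξ g n)
  · obtain ⟨n, hn⟩ := h
    exact single_dep hsw n ξ g hg hdir hn
  · push Not at h
    refine ⟨0, dir_mem_MQ hsw hdir hg ?_⟩
    intro n m hnm
    by_contra hne
    have h1 : IsDep k (sec (al ξ g n) (ξ m)) := hdir n (ξ m) (fun h => hne h.symm)
    rw [hnm] at h1
    exact h (m + 1) h1

theorem exists_levelQ (hsw : ∀ x, Equiv.swap d x ∈ Q) (N : ℕ) :
    ∀ (R : Finset (ℕ → X)) (g : T X), g ∈ FS Q →
    R.card = N → Bd k R g → ∃ n, g ∈ LvQ Q (MQ Q d k) n := by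
  induction N using Nat.strong_induction_on with
  | _ N ih =>
    intro R g hFS hR hg
    by_cases h1 : ∃ ρ ∈ R, ∃ ρ' ∈ R, ρ ≠ ρ'
    · obtain ⟨ρ, hρ, ρ', hρ', hne⟩ := h1
      obtain ⟨t, ht⟩ := Function.ne_iff.1 hne
      clear hne
      induction t generalizing R g ρ ρ' with
      | zero =>
        apply comb hsw hFS
        intro x
        refine ih (shR R x).card ?_ _ _ (FS_sec hFS x) rfl (bd_sec hg x)
        rw [← hR]
        by_contra h2
        rw [not_lt] at h2
        have h3 := all_of_card_shR h2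
        exact ht ((h3 ρ hρ).trans (h3 ρ' hρ').symm)
      | succ t iht =>
        apply comb hsw hFS
        intro x
        by_cases h2 : (shR R x).card < R.card
        · exact ih (shR R x).card (hR ▸ h2) _ _ (FS_sec hFS x) rfl (bd_sec hg x)
        · rw [not_lt] at h2
          have h3 := all_of_card_shR h2
          refine iht (shR R x) (sec g x) (FS_sec hFS x) ?_ (bd_sec hg x) (sh ρ) ?_ (sh ρ') ?_ ht
          · rw [← hR]
            exact le_antisymm (card_shR_le R x) h2
          · exact Finset.mem_image.2 ⟨ρ, Finset.mem_filter.2 ⟨hρ, h3 ρ hρ⟩, rfl⟩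
          · exact Finset.mem_image.2 ⟨ρ', Finset.mem_filter.2 ⟨hρ', h3 ρ' hρ'⟩, rfl⟩
    · by_cases h2 : R = ∅
      · rw [h2] at hg
        exact ⟨0, dep_mem_MQ Q d k (bd_empty hg) hFS⟩
      · obtain ⟨ρ, hρ⟩ := Finset.nonempty_iff_ne_empty.2 h2
        have h3 : R ⊆ {ρ} := by
          intro ρ' hρ'
          rw [Finset.mem_singleton]
          by_contra h4
          exact h1 ⟨ρ', hρ', ρ, hρ, h4⟩
        exact single hsw ρ g hFS (bd_single (bd_mono h3 hg))

end lev

theorem depthAt_mono {g : Equiv.Perm (List X)} {v : List X} {k k' : ℕ} (hk : k ≤ k')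
    (h : DepthAt g v k) : DepthAt g v k' := by
  intro u w hu
  have h1 : u = u.take k ++ u.drop k := (List.take_append_drop k u).symm
  have h2 : (u.take k).length = k := by
    rw [List.length_take, hu]
    exact min_eq_left hk
  have h3 := h (u.take k) (u.drop k ++ w) h2
  have h4 := h (u.take k) (u.drop k) h2
  have e1 : v ++ u ++ w = v ++ u.take k ++ (u.drop k ++ w) := by
    conv_lhs => rw [h1]
    simp only [List.append_assoc]
  have e2 : v ++ u = v ++ u.take k ++ u.drop k := by
    conv_lhs => rw [h1]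
    simp only [List.append_assoc]
  rw [e1, h3, e2, h4, List.append_assoc]

/-- the vertex permutations and the sections of a tree automorphism -/
theorem mem_FS_of {Q : Subgroup (Equiv.Perm X)} (g : T X)
    (hF : (Sections g.1).Finite)
    (hV : ∀ v : List X, ∃ q ∈ Q, ∀ x, g.1 (v ++ [x]) = g.1 v ++ [q x]) : g ∈ FS Q := by
  refine ⟨{h | (h.1 : List X → List X) ∈ Sections g.1}, ?_, ?_, ?_⟩
  · refine Set.Finite.of_finite_image (f := fun h : T X => (h.1 : List X → List X)) ?_ ?_
    · refine hF.subset ?_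
      rintro _ ⟨h, hh, rfl⟩
      exact hh
    · intro h _ h' _ heq
      apply Subtype.ext
      exact Equiv.coe_fn_injective heq
  · refine ⟨[], fun w => ?_⟩
    rw [nil_eq]
    rfl
  · intro h hh
    obtain ⟨v, hv⟩ := hh
    have h1 : ∀ x, g.1 (v ++ [x]) = g.1 v ++ [root h x] := by
      intro x
      rw [hv, cons_eq, nil_eq]
    refine ⟨?_, fun x => ⟨v ++ [x], fun w => ?_⟩⟩
    · obtain ⟨q, hq, hq'⟩ := hV v
      have h2 : root h = q := by
        apply Equiv.ext
        intro x
        have h3 := (h1 x).symm.trans (hq' x)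
        have h4 := List.append_cancel_left h3
        exact (List.cons.inj h4).1
      rw [h2]
      exact hq
    · rw [h1 x, List.append_assoc, List.singleton_append, hv, cons_eq, List.append_assoc]
      rfl

/-- **bounded automata over infinite alphabets** -/
theorem main {C : ∀ (G : Type) [Group G], Prop} (hC : ClosedE C) (X : Type)
    (Q : Subgroup (Equiv.Perm X)) (hQ : C (Q.map (QuotientGroup.mk' (FSym X))))
    (G : Type) [Group G] (f : G →* Equiv.Perm (List X))
    (hf : Function.Injective f) (S : Set G) (hS : Subgroup.closure S = ⊤)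
    (hT : ∀ s ∈ S, IsTree (f s)) (hF : ∀ s ∈ S, (Sections (f s)).Finite)
    (hV : ∀ s ∈ S, ∀ v : List X, ∃ q ∈ Q, ∀ x, f s (v ++ [x]) = f s v ++ [q x])
    (hB : ∀ s ∈ S, IsBdd (f s)) : C G := by
  have hmem : ∀ g, f g ∈ T X := by
    have h1 : Subgroup.closure S ≤ (T X).comap f := by
      rw [Subgroup.closure_le]
      exact hT
    intro g
    have h2 : g ∈ Subgroup.closure S := by rw [hS]; exact Subgroup.mem_top g
    exact h1 h2
  rcases isEmpty_or_nonempty X with hE | ⟨⟨d⟩⟩
  · have h1 : ∀ g : G, f g = 1 := by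
      intro g
      apply Equiv.ext
      intro w
      cases w with
      | nil => exact apply_nil (hmem g)
      | cons x _ => exact (hE.false x).elim
    haveI h2 : Subsingleton G := ⟨fun a b => hf ((h1 a).trans (h1 b).symm)⟩
    exact Pool.Agent.Y812.SS.C_subsingleton hC.base G
  · let f' : G →* T X := f.codRestrict (T X) hmem
    have hf' : Function.Injective f' := fun a b h => hf (congrArg Subtype.val h)
    have hQ' : C (Qp Q) := C_Qp hC Q hQ
    have hsw : ∀ x, Equiv.swap d x ∈ Qp Q := fun x => FSym_le_Qp Q (swap_mem_FSym d x)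
    have hFS : ∀ s ∈ S, f' s ∈ FS (Qp Q) := fun s hs =>
      FS_mono (le_Qp Q) (mem_FS_of (f' s) (hF s hs) (hV s hs))
    -- finitely many generators
    have key : ∀ E : Finset G, (E : Set G) ⊆ S → C (Subgroup.closure (E : Set G)) := by
      intro E hES
      have h1 : ∀ s : E, ∃ (R : Finset (ℕ → X)) (k : ℕ), Bd k R (f' s.1) :=
        fun s => hB s.1 (hES s.2)
      choose R k hRk using h1
      obtain ⟨K, hK⟩ := (Set.finite_range k).bddAbove
      have h2 : ∀ s : E, ∃ n, f' s.1 ∈ LvQ (Qp Q) (MQ (Qp Q) d K) n := by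
        intro s
        refine exists_levelQ hsw _ (R s) (f' s.1) (hFS s.1 (hES s.2)) rfl ?_
        intro v hv
        exact depthAt_mono (hK ⟨s, rfl⟩) (hRk s v hv)
      choose n hn using h2
      obtain ⟨N, hN⟩ := (Set.finite_range n).bddAbove
      have h3 : Subgroup.closure (E : Set G) ≤ (LvQ (Qp Q) (MQ (Qp Q) d K) N).comap f' := by
        rw [Subgroup.closure_le]
        intro s hs
        exact LvQ_mono hsw (hN ⟨⟨s, hs⟩, rfl⟩) (hn ⟨s, hs⟩)
      have h4 : C (LvQ (Qp Q) (MQ (Qp Q) d K) N) := C_LvQ hC hQ' _ (C_MQ hsw hC hQ') N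
      let φ : Subgroup.closure (E : Set G) →* LvQ (Qp Q) (MQ (Qp Q) d K) N :=
        { toFun := fun g => ⟨f' g.1, h3 g.2⟩
          map_one' := Subtype.ext (map_one f')
          map_mul' := fun a b => Subtype.ext (map_mul f' a.1 b.1) }
      refine hC.base.of_injective _ _ φ ?_ h4
      intro a b hab
      exact Subtype.ext (hf' (congrArg Subtype.val hab))
    haveI : Nonempty {E : Finset G // (E : Set G) ⊆ S} := ⟨⟨∅, by simp⟩⟩
    refine Pool.Agent.Y430.SS.of_directed hC.base G {E : Finset G // (E : Set G) ⊆ S} ?_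
      (fun E => Subgroup.closure (E.1 : Set G)) ?_ ?_ (fun E => key E.1 E.2)
    · intro E E'
      refine ⟨⟨E.1 ∪ E'.1, ?_⟩, ?_, ?_⟩
      · rw [Finset.coe_union]
        exact Set.union_subset E.2 E'.2
      · exact Finset.subset_union_left
      · exact Finset.subset_union_right
    · intro E E' h
      exact Subgroup.closure_mono (by exact_mod_cast h)
    · intro g
      have hg : g ∈ Subgroup.closure S := by rw [hS]; exact Subgroup.mem_top g
      have h5 : ∃ E : Finset G, (E : Set G) ⊆ S ∧ g ∈ Subgroup.closure (E : Set G) := by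
        induction hg using Subgroup.closure_induction with
        | mem x hx => exact ⟨{x}, by simpa using hx, Subgroup.subset_closure (by simp)⟩
        | one => exact ⟨∅, by simp, one_mem _⟩
        | mul x y _ _ hx hy =>
          obtain ⟨E, hE, hx⟩ := hx
          obtain ⟨E', hE', hy⟩ := hy
          refine ⟨E ∪ E', ?_, mul_mem (Subgroup.closure_mono ?_ hx) (Subgroup.closure_mono ?_ hy)⟩
          · rw [Finset.coe_union]
            exact Set.union_subset hE hE'
          · rw [Finset.coe_union]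
            exact Set.subset_union_left
          · rw [Finset.coe_union]
            exact Set.subset_union_right
        | inv x _ hx =>
          obtain ⟨E, hE, hx⟩ := hx
          exact ⟨E, hE, inv_mem hx⟩
      obtain ⟨E, hE, hg⟩ := h5
      exact ⟨⟨E, hE⟩, hg⟩

end Pool.Agent.U442.IA
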