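import Pool.Agent.U442.FJ.IA3

/-!
# Self-similar limits over infinite alphabets
-/

set_option autoImplicit false

namespace Pool.Agent.U442.IA

open Pool.Agent.Y462.SS
open Pool.Agent.Y331.SS (Kn Kn_zero Kn_succ mem_Kn_succ Kn_mono phi wmap)
open Pool.Agent.Y110.FJ (ClosedE)

/-- **self-similar limits over infinite alphabets** -/
theorem t_limQ {C : ∀ (G : Type) [Group G], Prop} (hC : ClosedE C) (X : Type)
    (Q : Subgroup (Equiv.Perm X)) (hQ : C Q) (Γ : Type) [Group Γ] (hΓ : C Γ) (ψ : Γ →* Wr X Γ)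
    (hp : ∀ γ, (ψ γ).p ∈ Q) (hfin : ∀ γ, (Set.range (ψ γ).s).Finite)
    (K : Subgroup Γ) [K.Normal] (hK : ∀ γ, γ ∈ K ↔ Dies ψ γ) : C (Γ ⧸ K) := by
  have hCn : ∀ n, C (Γ ⧸ Kn ψ n) := by
    intro n
    induction n with
    | zero =>
      refine hC.base.of_injective (Γ ⧸ Kn ψ 0) Γ (QuotientGroup.lift (Kn ψ 0) (MonoidHom.id _) ?_)
        ?_ hΓ
      · intro x hx
        rw [Kn_zero, Subgroup.mem_bot] at hx
        exact hx
      · rw [injective_iff_map_eq_one]
        intro a ha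
        obtain ⟨y, rfl⟩ := QuotientGroup.mk_surjective a
        have h1 : y = 1 := ha
        rw [h1]
        rfl
    | succ n ih =>
      have key : C (Γ ⧸ (phi ψ (Kn ψ n)).ker) := by
        refine t_wreath' hC hQ ih (QuotientGroup.kerLift (phi ψ (Kn ψ n)))
          (QuotientGroup.kerLift_injective _) ?_ ?_
        · intro g
          obtain ⟨y, rfl⟩ := QuotientGroup.mk_surjective g
          exact hp y
        · intro g
          obtain ⟨y, rfl⟩ := QuotientGroup.mk_surjective g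
          refine ((hfin y).image (QuotientGroup.mk' (Kn ψ n))).subset ?_
          rintro _ ⟨x, rfl⟩
          exact ⟨_, ⟨x, rfl⟩, rfl⟩
      exact key
  have hdies : ∀ γ, Dies ψ γ → ∃ n, γ ∈ Kn ψ n := by
    intro γ h
    induction h with
    | one => exact ⟨0, one_mem _⟩
    | step γ h1 _ ih =>
      have h2 : ∀ v : Γ, ∃ n, v ∈ Set.range (ψ γ).s → v ∈ Kn ψ n := by
        intro v
        by_cases hv : v ∈ Set.range (ψ γ).s
        · obtain ⟨x, rfl⟩ := hv
          obtain ⟨n, hn⟩ := ih x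
          exact ⟨n, fun _ => hn⟩
        · exact ⟨0, fun h => absurd h hv⟩
      choose n hn using h2
      obtain ⟨N, hN⟩ := ((hfin γ).image n).bddAbove
      refine ⟨N + 1, (mem_Kn_succ _ N _).2 ⟨h1, fun x => ?_⟩⟩
      exact Kn_mono _ (hN ⟨_, ⟨x, rfl⟩, rfl⟩) (hn _ ⟨x, rfl⟩)
  have hdies' : ∀ n γ, γ ∈ Kn ψ n → Dies ψ γ := by
    intro n
    induction n with
    | zero =>
      intro γ hn
      rw [Kn_zero, Subgroup.mem_bot] at hn
      rw [hn]
      exact Dies.one
    | succ n ih =>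
      intro γ hn
      rw [mem_Kn_succ] at hn
      exact Dies.step γ hn.1 fun x => ih _ (hn.2 x)
  have hle : ∀ n, Kn ψ n ≤ K := fun n γ h => (hK γ).2 (hdies' n γ h)
  refine hC.base.colim ℕ (fun i j => ⟨max i j, le_max_left i j, le_max_right i j⟩)
    (fun n => Γ ⧸ Kn ψ n)
    (fun i j h => QuotientGroup.map (Kn ψ i) (Kn ψ j) (MonoidHom.id Γ) (Kn_mono ψ h))
    (Γ ⧸ K) (fun i => QuotientGroup.map (Kn ψ i) K (MonoidHom.id Γ) (hle i)) ?_ ?_ ?_ ?_ ?_ hCn
  · intro i h x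
    obtain ⟨y, rfl⟩ := QuotientGroup.mk_surjective x
    rfl
  · intro i j k h h' x
    obtain ⟨y, rfl⟩ := QuotientGroup.mk_surjective x
    rfl
  · intro i j h x
    obtain ⟨y, rfl⟩ := QuotientGroup.mk_surjective x
    rfl
  · intro y
    obtain ⟨z, rfl⟩ := QuotientGroup.mk_surjective y
    exact ⟨0, QuotientGroup.mk z, rfl⟩
  · intro i x hx
    obtain ⟨y, rfl⟩ := QuotientGroup.mk_surjective x
    have h1 : ((y : Γ) : Γ ⧸ K) = 1 := hx
    have h2 : y ∈ K := (QuotientGroup.eq_one_iff _).1 h1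
    obtain ⟨n, hn⟩ := hdies y ((hK y).1 h2)
    refine ⟨max i n, le_max_left i n, ?_⟩
    have h3 : y ∈ Kn ψ (max i n) := Kn_mono ψ (le_max_right i n) hn
    exact (QuotientGroup.eq_one_iff _).2 h3

end Pool.Agent.U442.IA
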