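import Pool.Agent.U442.FJ.IA4
import Pool.Agent.Y708.SS.Aut

/-!
# Infinite alphabets: bounded activity
-/

set_option autoImplicit false

namespace Pool.Agent.U442.IA

open Pool.Agent.Y462.SS
open Pool.Agent.Y708.SS (Inf child depth_unif ex ex_length ex_prefix ray ex_onRay onRay_prefix)
open Pool.Agent.Y110.FJ (ClosedE)

/-- Bounded activity: there is a constant `c` such that for every `n` there are at most `c` words `v` of
length `n` below which `g` is not finitary (acts with infinite depth). -/
def BA {X : Type} (g : Equiv.Perm (List X)) : Prop :=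
  ∃ c : ℕ, ∀ n : ℕ, {v : List X | v.length = n ∧ ∀ m, ¬ DepthAt g v m}.encard ≤ c

theorem isBdd_of {X : Type} {g : Equiv.Perm (List X)} (hg : IsTree g)
    (hf : (Sections g).Finite) (hb : BA g) : IsBdd g := by
  classical
  obtain ⟨k, hk⟩ := depth_unif hg hf
  by_cases hne : ∃ v, Inf g v
  · obtain ⟨v₀, hv₀⟩ := hne
    obtain ⟨x₀, -⟩ := child hg hf hv₀
    have h1 : ∀ v : List X, ∃ x, Inf g v → Inf g (v ++ [x]) := by
      intro v
      by_cases hv : Inf g v
      · obtain ⟨x, hx⟩ := child hg hf hv
        exact ⟨x, fun _ => hx⟩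
      · exact ⟨x₀, fun h => absurd h hv⟩
    choose ch hch using h1
    have hex : ∀ m v, Inf g v → Inf g (ex ch m v) := by
      intro m v hv
      induction m with
      | zero => exact hv
      | succ m ih => exact hch _ ih
    -- the number of words of length `n`
    let Nn : ℕ → Set (List X) := fun n => {v | v.length = n ∧ Inf g v}
    obtain ⟨c, hc⟩ := hb
    have hNfin : ∀ n, (Nn n).Finite := fun n => Set.finite_of_encard_le_coe (hc n)
    have hNc : ∀ n, (Nn n).ncard ≤ c := by
      intro n
      have h2 : (Nn n).encard ≤ c := hc n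
      rw [← (hNfin n).cast_ncard_eq] at h2
      exact_mod_cast h2
    have hbd : BddAbove (Set.range fun n => (Nn n).ncard) := by
      refine ⟨c, ?_⟩
      rintro _ ⟨n, rfl⟩
      exact hNc n
    obtain ⟨n₀, hn₀⟩ := Nat.sSup_mem (Set.range_nonempty fun n => (Nn n).ncard) hbd
    have hmax : ∀ n, (Nn n).ncard ≤ (Nn n₀).ncard := by
      intro n
      have h2 := le_csSup hbd (Set.mem_range_self (f := fun n => (Nn n).ncard) n)
      rw [← hn₀] at h2
      exact h2
    have hsurj : ∀ m v, v ∈ Nn (n₀ + m) → ∃ v' ∈ Nn n₀, ex ch m v' = v := by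
      intro m v hv
      have hsub : ex ch m '' Nn n₀ ⊆ Nn (n₀ + m) := by
        rintro _ ⟨w, hw, rfl⟩
        exact ⟨by rw [ex_length, hw.1], hex m w hw.2⟩
      have hinj : Set.InjOn (ex ch m) (Nn n₀) := by
        intro a ha b hb hab
        have e1 : a <+: ex ch m a := ex_prefix ch (Nat.zero_le m) a
        have e2 : b <+: ex ch m a := by
          rw [hab]
          exact ex_prefix ch (Nat.zero_le m) b
        have e3 := List.prefix_of_prefix_length_le e1 e2 (by rw [ha.1, hb.1])
        exact e3.eq_of_length (by rw [ha.1, hb.1])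
      have heq : ex ch m '' Nn n₀ = Nn (n₀ + m) := by
        apply Set.eq_of_subset_of_ncard_le hsub _ (hNfin _)
        rw [hinj.ncard_image]
        exact hmax _
      rw [← heq] at hv
      exact hv
    refine ⟨(hNfin n₀).toFinset.image (ray ch), k, fun v hv => ?_⟩
    have hnot : ¬ Inf g v := by
      intro hinf
      rcases le_total n₀ v.length with hle | hle
      · obtain ⟨v', hv', he⟩ := hsurj (v.length - n₀) v ⟨by omega, hinf⟩
        apply hv (ray ch v') (Finset.mem_image_of_mem _ ((hNfin n₀).mem_toFinset.2 hv'))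
        rw [← he]
        exact ex_onRay ch _ _
      · have hv' : ex ch (n₀ - v.length) v ∈ Nn n₀ :=
          ⟨by rw [ex_length]; omega, hex _ _ hinf⟩
        apply hv _ (Finset.mem_image_of_mem (ray ch) ((hNfin n₀).mem_toFinset.2 hv'))
        exact onRay_prefix (ex_prefix ch (Nat.zero_le _) v) (ex_onRay ch 0 _)
    unfold Inf at hnot
    push Not at hnot
    obtain ⟨n, hn⟩ := hnot
    exact hk _ _ hn
  · refine ⟨∅, k, fun v _ => ?_⟩
    have hnot : ¬ Inf g v := fun h => hne ⟨v, h⟩
    unfold Inf at hnot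
    push Not at hnot
    obtain ⟨n, hn⟩ := hnot
    exact hk _ _ hn

/-- a group without nontrivial finitely supported permutations: `Q` modulo these is `Q` -/
theorem C_map_of {C : ∀ (G : Type) [Group G], Prop} (hC : ClosedE C) {X : Type}
    (Q : Subgroup (Equiv.Perm X)) (hQ : C Q) (h : ∀ q ∈ Q, {x | q x ≠ x}.Finite → q = 1) :
    C (Q.map (QuotientGroup.mk' (FSym X))) := by
  let f : Q →* (Q.map (QuotientGroup.mk' (FSym X))) :=
    { toFun := fun q => ⟨QuotientGroup.mk' (FSym X) q.1, ⟨q.1, q.2, rfl⟩⟩
      map_one' := rfl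
      map_mul' := fun _ _ => rfl }
  have hinj : Function.Injective f := by
    rw [injective_iff_map_eq_one]
    intro q hq
    have h1 : QuotientGroup.mk' (FSym X) q.1 = 1 := congrArg Subtype.val hq
    have h2 : q.1 ∈ FSym X := (QuotientGroup.eq_one_iff _).1 h1
    exact Subtype.ext (h q.1 q.2 h2)
  have hsurj : Function.Surjective f := by
    rintro ⟨_, q, hq, rfl⟩
    exact ⟨⟨q, hq⟩, rfl⟩
  exact hC.base.of_injective _ _ (MulEquiv.ofBijective f ⟨hinj, hsurj⟩).symm.toMonoidHom
    (MulEquiv.injective _) hQ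

end Pool.Agent.U442.IA
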