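import Pool.Agent.R779.FJ.Col
import Pool.Agent.Y961.FJ.Perm
import Pool.Agent.Y529.FJ.Ext
import Pool.Agent.Y812.SS.Wr

/-!
# Eventually periodic sequences with shifts
-/

set_option autoImplicit false

namespace Pool.Agent.U442.FJ

open Pool.Agent.Y462.SS (Closed Wr)
open Pool.Agent.Y110.FJ (ClosedE)

/-- at the end `ε` (`1`: `+∞`, `-1`: `-∞`), the sequence `s` is eventually equal to `b` on the residue
class `j` -/
def Ev {B : Type} (m : ℕ) (s : ℤ → B) (ε : ℤˣ) (j : ZMod m) (b : B) : Prop :=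
  ∃ M : ℤ, ∀ i : ℤ, M ≤ ε * i → (i : ZMod m) = j → s i = b

theorem unit_cases (ε : ℤˣ) : (ε : ℤ) = 1 ∨ (ε : ℤ) = -1 := by
  rcases Int.units_eq_one_or ε with h | h
  · left; simp [h]
  · right; simp [h]

theorem exists_big (m : ℕ) [NeZero m] (ε : ℤˣ) (j : ZMod m) (M : ℤ) :
    ∃ i : ℤ, M ≤ ε * i ∧ (i : ZMod m) = j := by
  have hm : (1 : ℤ) ≤ m := by
    have := NeZero.pos m
    exact_mod_cast this
  refine ⟨j.val + m * (ε * (|M| + j.val)), ?_, ?_⟩
  · have h0 : (0 : ℤ) ≤ j.val := by positivity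
    have h1 : M ≤ |M| := le_abs_self M
    have h2 : |M| + j.val ≤ m * (|M| + j.val) := by
      have : (0 : ℤ) ≤ |M| + j.val := by positivity
      nlinarith
    rcases unit_cases ε with h | h
    · rw [h]
      nlinarith
    · rw [h]
      nlinarith
  · push_cast
    simp

theorem Ev.unique {B : Type} {m : ℕ} [NeZero m] {s : ℤ → B} {ε : ℤˣ} {j : ZMod m} {b b' : B}
    (h : Ev m s ε j b) (h' : Ev m s ε j b') : b = b' := by
  obtain ⟨M, hM⟩ := h
  obtain ⟨M', hM'⟩ := h'
  obtain ⟨i, hi, hj⟩ := exists_big m ε j (max M M')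
  rw [← hM i ((le_max_left _ _).trans hi) hj, ← hM' i ((le_max_right _ _).trans hi) hj]

theorem Ev.shift {B : Type} {m : ℕ} {s : ℤ → B} {ε : ℤˣ} {j : ZMod m} {b : B} (k : ℤ)
    (h : Ev m s ε (j + (k : ZMod m)) b) : Ev m (fun i => s (i + k)) ε j b := by
  obtain ⟨M, hM⟩ := h
  refine ⟨M + |k|, fun i hi hj => hM _ ?_ (by push_cast; rw [hj])⟩
  have h1 : k ≤ |k| := le_abs_self k
  have h2 : -k ≤ |k| := neg_le_abs k
  rcases unit_cases ε with h | h
  · rw [h] at hi ⊢
    linarith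
  · rw [h] at hi ⊢
    linarith

theorem Ev.mul {B : Type} [Group B] {m : ℕ} {s t : ℤ → B} {ε : ℤˣ} {j : ZMod m} {b c : B}
    (h : Ev m s ε j b) (h' : Ev m t ε j c) : Ev m (fun i => s i * t i) ε j (b * c) := by
  obtain ⟨M, hM⟩ := h
  obtain ⟨M', hM'⟩ := h'
  refine ⟨max M M', fun i hi hj => ?_⟩
  change s i * t i = b * c
  rw [hM i ((le_max_left _ _).trans hi) hj, hM' i ((le_max_right _ _).trans hi) hj]

theorem Ev.inv {B : Type} [Group B] {m : ℕ} {s : ℤ → B} {ε : ℤˣ} {j : ZMod m} {b : B}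
    (h : Ev m s ε j b) : Ev m (fun i => (s i)⁻¹) ε j b⁻¹ := by
  obtain ⟨M, hM⟩ := h
  refine ⟨M, fun i hi hj => ?_⟩
  change (s i)⁻¹ = b⁻¹
  rw [hM i hi hj]

theorem Ev.comp {B D : Type} {m : ℕ} {s : ℤ → B} {ε : ℤˣ} {j : ZMod m} {b : B} (c : B → D)
    (h : Ev m s ε j b) : Ev m (fun i => c (s i)) ε j (c b) := by
  obtain ⟨M, hM⟩ := h
  exact ⟨M, fun i hi hj => congrArg c (hM i hi hj)⟩

/-- The group of the pairs `(s, k)`, where `s : ℤ → B` is a sequence which is eventually periodic with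
period `m` at both ends and `k` is a translation of `ℤ`. -/
def T (m : ℕ) (B : Type) [Group B] : Subgroup (Wr ℤ B) where
  carrier := {a | (∃ k : ℤ, ∀ i, a.p i = i + k) ∧ ∀ ε j, ∃ b, Ev m a.s ε j b}
  one_mem' := ⟨⟨0, fun i => by simp⟩, fun ε j => ⟨1, 0, fun i _ _ => rfl⟩⟩
  mul_mem' := by
    rintro a b ⟨⟨k, hk⟩, ha⟩ ⟨⟨l, hl⟩, hb⟩
    refine ⟨⟨l + k, fun i => ?_⟩, fun ε j => ?_⟩
    · change a.p (b.p i) = _
      rw [hk, hl, add_assoc]
    · obtain ⟨β, hβ⟩ := hb ε j
      obtain ⟨α, hα⟩ := ha ε (j + (l : ZMod m))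
      refine ⟨α * β, ?_⟩
      have := (hα.shift l).mul hβ
      convert this using 2 with i
      change a.s (b.p i) * b.s i = _
      rw [hl]
  inv_mem' := by
    rintro a ⟨⟨k, hk⟩, ha⟩
    have hk' : ∀ i, a.p⁻¹ i = i + (-k) := by
      intro i
      rw [Equiv.Perm.inv_eq_iff_eq, hk]
      ring
    refine ⟨⟨-k, hk'⟩, fun ε j => ?_⟩
    obtain ⟨α, hα⟩ := ha ε (j + ((-k : ℤ) : ZMod m))
    refine ⟨α⁻¹, ?_⟩
    have := (hα.shift (-k)).inv
    convert this using 2 with i
    change (a.s (a.p⁻¹ i))⁻¹ = _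
    rw [hk']

namespace T

variable {m : ℕ} {B : Type} [Group B]

/-- the translation -/
def k (a : T m B) : ℤ := a.1.p 0

theorem p_apply (a : T m B) (i : ℤ) : a.1.p i = i + k a := by
  obtain ⟨⟨l, hl⟩, -⟩ := a.2
  unfold k
  rw [hl, hl, zero_add]

theorem k_mul (a b : T m B) : k (a * b) = k a + k b := by
  change a.1.p (b.1.p 0) = _
  rw [p_apply, p_apply]
  ring

/-- the germs -/
noncomputable def germ (a : T m B) (x : ℤˣ × ZMod m) : B := (a.2.2 x.1 x.2).choose

theorem germ_spec (a : T m B) (x : ℤˣ × ZMod m) : Ev m a.1.s x.1 x.2 (germ a x) :=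
  (a.2.2 x.1 x.2).choose_spec

/-- the permutation of the germs -/
def gp (a : T m B) : Equiv.Perm (ℤˣ × ZMod m) :=
  Equiv.prodCongr (Equiv.refl _) (Equiv.addRight ((k a : ℤ) : ZMod m))

/-- the homomorphism to the germs and the translation -/
noncomputable def θ (m : ℕ) [NeZero m] (B : Type) [Group B] :
    T m B →* Wr (ℤˣ × ZMod m) B × Multiplicative ℤ :=
  MonoidHom.mk' (fun a => (⟨germ a, gp a⟩, Multiplicative.ofAdd (k a))) (by
    intro a b
    refine Prod.ext ?_ ?_
    · refine Wr.ext ?_ ?_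
      · funext x
        change germ (a * b) x = germ a (gp b x) * germ b x
        refine (germ_spec (a * b) x).unique ?_
        have h1 := (germ_spec a (gp b x))
        have h2 := ((show Ev m a.1.s x.1 (x.2 + ((k b : ℤ) : ZMod m)) (germ a (gp b x)) from h1).shift
          (k b)).mul (germ_spec b x)
        convert h2 using 2 with i
        change a.1.s (b.1.p i) * b.1.s i = _
        rw [p_apply]
      · apply Equiv.ext
        intro x
        change (x.1, x.2 + ((k (a * b) : ℤ) : ZMod m)) = (x.1, (x.2 + ((k b : ℤ) : ZMod m)) +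
          ((k a : ℤ) : ZMod m))
        rw [k_mul]
        push_cast
        rw [add_assoc, add_comm ((k b : ℤ) : ZMod m)]
    · change Multiplicative.ofAdd (k (a * b)) = Multiplicative.ofAdd (k a) * Multiplicative.ofAdd (k b)
      rw [k_mul]
      rfl)

theorem ker_p [NeZero m] {a : T m B} (h : a ∈ (θ m B).ker) : a.1.p = 1 := by
  have h1 : Multiplicative.ofAdd (k a) = 1 := congrArg Prod.snd h
  have h2 : k a = 0 := h1
  apply Equiv.ext
  intro i
  rw [p_apply, h2, add_zero]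
  rfl

theorem ker_s [NeZero m] {a : T m B} (h : a ∈ (θ m B).ker) : ∃ M : ℤ, ∀ i : ℤ, M ≤ |i| → a.1.s i = 1 := by
  have h1 : ∀ x, germ a x = 1 := by
    intro x
    exact congrFun (congrArg Wr.s (congrArg Prod.fst h)) x
  have h2 : ∀ x : ℤˣ × ZMod m, ∃ M : ℤ, ∀ i : ℤ, M ≤ x.1 * i → (i : ZMod m) = x.2 → a.1.s i = 1 := by
    intro x
    have := germ_spec a x
    rw [h1] at this
    exact this
  choose M hM using h2
  obtain ⟨M0, hM0⟩ := (Set.finite_range M).bddAbove
  refine ⟨M0, fun i hi => ?_⟩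
  rcases le_total 0 i with h | h
  · rw [abs_of_nonneg h] at hi
    refine hM (1, (i : ZMod m)) i ?_ rfl
    have := hM0 ⟨(1, (i : ZMod m)), rfl⟩
    simp only [Units.val_one, one_mul]
    exact this.trans hi
  · rw [abs_of_nonpos h] at hi
    refine hM (-1, (i : ZMod m)) i ?_ rfl
    have := hM0 ⟨(-1, (i : ZMod m)), rfl⟩
    simp only [Units.val_neg, Units.val_one, neg_mul, one_mul]
    exact this.trans hi

end T

theorem rep_eq {L : ℕ} (i : ℤ) (h : 2 * |i| < L) : ((i : ZMod L)).valMinAbs = i := by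
  have hL : L ≠ 0 := by
    rintro rfl
    have := abs_nonneg i
    simp at h
    omega
  haveI : NeZero L := ⟨hL⟩
  rw [ZMod.valMinAbs_spec]
  refine ⟨rfl, ?_, ?_⟩
  · have := neg_abs_le i
    linarith
  · have := le_abs_self i
    linarith

/-- the conjugation formula -/
theorem Wr.conj_s {X Γ : Type} [Group Γ] (a e : Wr X Γ) (he : e.p = 1) (x : X) :
    (a * e * a⁻¹).s x = a.s (a.p⁻¹ x) * e.s (a.p⁻¹ x) * (a.s (a.p⁻¹ x))⁻¹ := by
  change a.s (e.p (a.p⁻¹ x)) * e.s (a.p⁻¹ x) * (a.s (a.p⁻¹ x))⁻¹ = _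
  rw [he]
  rfl

theorem Wr.conj_p {X Γ : Type} [Group Γ] (a e : Wr X Γ) (he : e.p = 1) :
    (a * e * a⁻¹).p = 1 := by
  change a.p * e.p * a.p⁻¹ = 1
  rw [he]
  group

theorem t_T (C : ∀ (G : Type) [Group G], Prop) (hC : ClosedE C) (m : ℕ) [NeZero m] (B : Type)
    [Group B] (hB : C B) : C (T m B) := by
  refine Pool.Agent.R779.FJ.t_crit Pool.Agent.Y529.FJ.t_ext
    (Pool.Agent.Y961.FJ.t_perm Pool.Agent.Y529.FJ.t_ext) C hC (T m B) (T.θ m B).ker ?_ ?_
  · exact hC.base.of_injective _ _ (QuotientGroup.kerLift (T.θ m B))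
      (QuotientGroup.kerLift_injective _)
      (hC.base.prod _ _ (Pool.Agent.Y812.SS.t_wr C hC.base _ _ inferInstance hB) hC.base.int)
  intro g E hE hEN
  -- a common bound for the supports
  have h1 : ∃ M : ℤ, ∀ e ∈ E, ∀ i : ℤ, M ≤ |i| → e.1.s i = 1 := by
    have h2 : ∀ e : T m B, ∃ M : ℤ, e ∈ E → ∀ i : ℤ, M ≤ |i| → e.1.s i = 1 := by
      intro e
      by_cases he : e ∈ E
      · obtain ⟨M, hM⟩ := T.ker_s (hEN he)
        exact ⟨M, fun _ => hM⟩
      · exact ⟨0, fun h => absurd h he⟩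
    choose M hM using h2
    obtain ⟨M0, hM0⟩ := (hE.image M).bddAbove
    exact ⟨M0, fun e he i hi => hM e he i ((hM0 ⟨e, he, rfl⟩).trans hi)⟩
  obtain ⟨M, hM⟩ := h1
  set R : ℤ := |M| + |T.k g| + 1 with hR
  have hR0 : 0 < R := by positivity
  obtain ⟨L, hL⟩ : ∃ L : ℕ, 2 * R + 1 = L := ⟨(2 * R + 1).toNat, by
    rw [Int.toNat_of_nonneg]
    linarith⟩
  haveI : NeZero L := ⟨by
    rintro rfl
    norm_num at hL
    omega⟩
  have hNH : Subgroup.closure (E ∪ (fun x => g * x * g⁻¹) '' E) ≤ (T.θ m B).ker := by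
    rw [Subgroup.closure_le]
    rintro x (hx | ⟨y, hy, rfl⟩)
    · exact hEN hx
    · exact (inferInstance : (T.θ m B).ker.Normal).conj_mem y (hEN hy) g
  have hgk : ∀ i, g.1.p⁻¹ i = i - T.k g := by
    intro i
    rw [Equiv.Perm.inv_eq_iff_eq, T.p_apply]
    ring
  have hconj : ∀ x ∈ E, ∀ i, (g * x * g⁻¹).1.s i =
      g.1.s (i - T.k g) * x.1.s (i - T.k g) * (g.1.s (i - T.k g))⁻¹ := by
    intro x hx i
    have := Wr.conj_s g.1 x.1 (T.ker_p (hEN hx)) i
    rw [hgk] at this
    exact this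
  have hsupp : ∀ x ∈ Subgroup.closure (E ∪ (fun x => g * x * g⁻¹) '' E), ∀ i : ℤ, R ≤ |i| →
      x.1.s i = 1 := by
    intro x hx
    have hx' : x ∈ Subgroup.closure (E ∪ (fun x => g * x * g⁻¹) '' E) := hx
    induction hx using Subgroup.closure_induction with
    | mem x hx =>
      rcases hx with hx | ⟨y, hy, rfl⟩
      · intro i hi
        refine hM x hx i ?_
        have := le_abs_self M
        have := abs_nonneg (T.k g)
        linarith
      · intro i hi
        change (g * y * g⁻¹).1.s i = 1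
        rw [hconj y hy, hM y hy (i - T.k g) ?_]
        · group
        · have h3 : |i| ≤ |i - T.k g| + |T.k g| := by
            have := abs_add_le (i - T.k g) (T.k g)
            rwa [sub_add_cancel] at this
          have := le_abs_self M
          linarith
    | one => intro i _; rfl
    | mul x y hx hy ihx ihy =>
      intro i hi
      change x.1.s (y.1.p i) * y.1.s i = 1
      rw [T.ker_p (hNH hy)]
      change x.1.s i * y.1.s i = 1
      rw [ihx hx i hi, ihy hy i hi, one_mul]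
    | inv x hx ih =>
      intro i hi
      change (x.1.s (x.1.p⁻¹ i))⁻¹ = 1
      rw [T.ker_p (hNH hx)]
      change (x.1.s i)⁻¹ = 1
      rw [ih hx i hi, inv_one]
  refine ⟨Wr (ZMod L) B, inferInstance,
    { toFun := fun h => ⟨fun j => h.1.1.s j.valMinAbs, 1⟩
      map_one' := rfl
      map_mul' := fun x y => ?_ },
    ⟨fun j => g.1.s j.valMinAbs, Equiv.addRight ((T.k g : ℤ) : ZMod L)⟩,
    Pool.Agent.Y812.SS.t_wr C hC.base _ _ inferInstance hB, ?_, ?_⟩
  · refine Wr.ext ?_ rfl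
    funext j
    change x.1.1.s (y.1.1.p _) * _ = x.1.1.s _ * y.1.1.s _
    rw [T.ker_p (hNH y.2)]
    rfl
  · intro x y hxy
    apply Subtype.ext
    apply Subtype.ext
    refine Wr.ext ?_ ?_
    · funext i
      rcases lt_or_ge |i| R with hi | hi
      · have h3 : ((i : ZMod L)).valMinAbs = i := rep_eq i (by rw [← hL]; linarith)
        have h4 := congrFun (congrArg Wr.s hxy) (i : ZMod L)
        change x.1.1.s ((i : ZMod L)).valMinAbs = y.1.1.s ((i : ZMod L)).valMinAbs at h4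
        rwa [h3] at h4
      · rw [hsupp x.1 x.2 i hi, hsupp y.1 y.2 i hi]
    · rw [T.ker_p (hNH x.2), T.ker_p (hNH y.2)]
  · intro x y hx hy
    have hxp := T.ker_p (hEN hx)
    refine Wr.ext ?_ ?_
    · funext j
      rw [Wr.conj_s _ _ rfl]
      have h5 : ((⟨fun j => g.1.s j.valMinAbs, Equiv.addRight ((T.k g : ℤ) : ZMod L)⟩ :
        Wr (ZMod L) B).p)⁻¹ j = j - ((T.k g : ℤ) : ZMod L) := by
        rw [Equiv.Perm.inv_eq_iff_eq]
        change j = j - ((T.k g : ℤ) : ZMod L) + ((T.k g : ℤ) : ZMod L)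
        rw [sub_add_cancel]
      rw [h5]
      change y.1.1.s j.valMinAbs = g.1.s (j - ((T.k g : ℤ) : ZMod L)).valMinAbs *
        x.1.1.s (j - ((T.k g : ℤ) : ZMod L)).valMinAbs * (g.1.s (j - ((T.k g : ℤ) : ZMod L)).valMinAbs)⁻¹
      rw [hy, hconj _ hx]
      by_cases hj : (j - ((T.k g : ℤ) : ZMod L)).valMinAbs = j.valMinAbs - T.k g
      · rw [hj]
      · have h6 : M ≤ |j.valMinAbs - T.k g| := by
          by_contra hcon
          push Not at hcon
          apply hj
          have h7 := rep_eq (L := L) (j.valMinAbs - T.k g) (by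
            rw [← hL]
            have := le_abs_self M
            have := abs_nonneg (T.k g)
            linarith)
          rw [← h7]
          congr 1
          push_cast
          simp
        have h8 : M ≤ |(j - ((T.k g : ℤ) : ZMod L)).valMinAbs| := by
          by_contra hcon
          push Not at hcon
          apply hj
          have h7 := rep_eq (L := L) ((j - ((T.k g : ℤ) : ZMod L)).valMinAbs + T.k g) (by
            rw [← hL]
            have := le_abs_self M
            have := abs_add_le ((j - ((T.k g : ℤ) : ZMod L)).valMinAbs) (T.k g)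
            linarith)
          have h9 : ((((j - ((T.k g : ℤ) : ZMod L)).valMinAbs + T.k g : ℤ)) : ZMod L) = j := by
            push_cast
            simp
          rw [h9] at h7
          rw [h7]
          ring
        rw [hM _ hx _ h6, hM _ hx _ h8]
        group
    · rw [Wr.conj_p _ _ rfl]
      rfl

end Pool.Agent.U442.FJ
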